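import Pool.Agent.V8H22.BSW.A4

/-!
# Taylor coefficients of a meromorphic function with one nearest pole
-/

set_option autoImplicit false
set_option maxHeartbeats 1000000

open MeasureTheory Complex Set Filter Topology Metric

namespace Pool.Agent.V8H22.IW

/-- the derivatives of `1 / (z - z1) ^ (n + 1)` -/
lemma iter_pole (n : ℕ) (z1 : ℂ) (k : ℕ) : ∀ z : ℂ, z ≠ z1 →
    iteratedDeriv k (fun z : ℂ => ((z - z1) ^ (n + 1))⁻¹) z =
      (-1) ^ k * ((n + 1).ascFactorial k : ℂ) * ((z - z1) ^ (n + 1 + k))⁻¹ := by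
  induction k with
  | zero => intro z _; simp
  | succ k ih =>
    intro z hz
    rw [iteratedDeriv_succ]
    have h1 : iteratedDeriv k (fun z : ℂ => ((z - z1) ^ (n + 1))⁻¹) =ᶠ[𝓝 z]
        fun w => (-1) ^ k * ((n + 1).ascFactorial k : ℂ) * ((w - z1) ^ (n + 1 + k))⁻¹ := by
      filter_upwards [isOpen_ne.mem_nhds hz] with w hw using ih w hw
    rw [h1.deriv_eq]
    have h5 : z - z1 ≠ 0 := sub_ne_zero.2 hz
    have h2 : HasDerivAt (fun w : ℂ => (w - z1) ^ (n + 1 + k))
        (((n + 1 + k : ℕ) : ℂ) * (z - z1) ^ (n + 1 + k - 1) * 1) z :=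
      ((hasDerivAt_id z).sub_const z1).pow (n + 1 + k)
    have h3 : HasDerivAt (fun w : ℂ => (-1) ^ k * ((n + 1).ascFactorial k : ℂ) * ((w - z1) ^ (n + 1 + k))⁻¹)
        ((-1) ^ k * ((n + 1).ascFactorial k : ℂ) * (-(((n + 1 + k : ℕ) : ℂ) * (z - z1) ^ (n + 1 + k - 1) * 1) /
          ((z - z1) ^ (n + 1 + k)) ^ 2)) z :=
      (h2.inv (pow_ne_zero _ h5)).const_mul ((-1) ^ k * ((n + 1).ascFactorial k : ℂ))
    rw [h3.deriv, Nat.ascFactorial_succ]
    rw [show n + 1 + k - 1 = n + k by omega, show n + 1 + (k + 1) = (n + k) + 2 by omega,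
      show n + 1 + k = (n + k) + 1 by omega]
    push_cast
    field_simp
    ring

/-- no pole: the coefficients decay -/
lemma coef0 {G : ℂ → ℂ} {c w : ℂ} {R : ℝ} (hG : DifferentiableOn ℂ G (ball c R)) (hw0 : 0 < ‖w‖) (hw : ‖w‖ < R) :
    Tendsto (fun k : ℕ => (-1) ^ k * iteratedDeriv k G c * w ^ k / (k.factorial : ℂ)) atTop (𝓝 0) := by
  obtain ⟨R1, hR1⟩ : ∃ R1, R1 = (‖w‖ + R) / 2 := ⟨_, rfl⟩
  have h1 : 0 < R1 := by rw [hR1]; linarith
  have h2 : R1 < R := by rw [hR1]; linarith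
  have hcl : DiffContOnCl ℂ G (ball c R1) := by
    refine DifferentiableOn.diffContOnCl (hG.mono ?_)
    exact closure_ball_subset_closedBall.trans (closedBall_subset_ball h2)
  obtain ⟨M, hM⟩ := (isCompact_sphere c R1).exists_bound_of_continuousOn (f := G)
    (hG.continuousOn.mono ((sphere_subset_closedBall).trans (closedBall_subset_ball h2)))
  have h3 : ∀ k : ℕ, ‖(-1) ^ k * iteratedDeriv k G c * w ^ k / (k.factorial : ℂ)‖ ≤
      |M| * (‖w‖ / R1) ^ k := by
    intro k
    have h4 := Complex.norm_iteratedDeriv_le_of_forall_mem_sphere_norm_le (n := k) h1 hcl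
      (fun z hz => (hM z hz).trans (le_abs_self M))
    have hk : (0:ℝ) < k.factorial := by exact_mod_cast k.factorial_pos
    rw [norm_div, norm_mul, norm_mul, norm_pow, norm_neg, norm_one, one_pow, one_mul, norm_pow,
      Complex.norm_natCast, div_le_iff₀ hk]
    calc ‖iteratedDeriv k G c‖ * ‖w‖ ^ k ≤ (k.factorial * |M| / R1 ^ k) * ‖w‖ ^ k := by gcongr
      _ = |M| * (‖w‖ / R1) ^ k * k.factorial := by rw [div_pow]; ring
  refine squeeze_zero_norm h3 ?_
  have h5 := (tendsto_pow_atTop_nhds_zero_of_lt_one (r := ‖w‖ / R1) (by positivity)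
    (by rw [div_lt_one h1, hR1]; linarith)).const_mul |M|
  rwa [mul_zero] at h5

lemma choose_ratio (n : ℕ) : Tendsto (fun k : ℕ => (((n + k).choose k : ℕ) : ℂ) / (((n + 1 + k).choose k : ℕ) : ℂ))
    atTop (𝓝 0) := by
  have h : ∀ k : ℕ, (((n + k).choose k : ℕ) : ℂ) / (((n + 1 + k).choose k : ℕ) : ℂ) =
      ((((n + 1 : ℕ) : ℝ) / ((n + 1 + k : ℕ) : ℝ) : ℝ) : ℂ) := by
    intro k
    have h1 : (n + k + 1) * (n + k).choose k = (n + 1) * (n + 1 + k).choose k := by
      have h2 := Nat.add_one_mul_choose_eq (n + k) n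
      have h3 : (n + k).choose n = (n + k).choose k := by
        rw [← Nat.choose_symm_add]
      have h4 : (n + k + 1).choose (n + 1) = (n + 1 + k).choose k := by
        rw [show n + k + 1 = (n + 1) + k by omega, ← Nat.choose_symm_add]
      rw [h3, h4] at h2
      rw [h2]; ring
    have h5 : (((n + 1 + k).choose k : ℕ) : ℂ) ≠ 0 := by
      exact_mod_cast (Nat.choose_pos (by omega)).ne'
    have h6 : ((n:ℂ) + 1 + k) ≠ 0 := by
      have : ((n + 1 + k : ℕ) : ℂ) ≠ 0 := by exact_mod_cast (by omega : n + 1 + k ≠ 0)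
      simpa using this
    have h7 : ((n:ℂ) + k + 1) * (((n + k).choose k : ℕ) : ℂ) = (n + 1) * (((n + 1 + k).choose k : ℕ) : ℂ) := by
      exact_mod_cast h1
    push_cast
    rw [div_eq_div_iff h5 h6]
    linear_combination h7
  simp_rw [h]
  rw [show (0:ℂ) = ((0:ℝ) : ℂ) by simp]
  refine (Complex.continuous_ofReal.tendsto 0).comp ?_
  refine Tendsto.div_atTop tendsto_const_nhds ?_
  exact tendsto_natCast_atTop_atTop.comp (tendsto_atTop_mono (fun k => Nat.le_add_left k (n + 1)) tendsto_id)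

/-- **Coefficients at a pole.** -/
theorem coef_pole {c z1 : ℂ} {R : ℝ} (hz : z1 ≠ c) (hR : ‖c - z1‖ < R) (n : ℕ) :
    ∀ G : ℂ → ℂ, DifferentiableOn ℂ G (ball c R) →
    Tendsto (fun k : ℕ => (-1) ^ k * iteratedDeriv k (fun z => G z / (z - z1) ^ (n + 1)) c *
      (c - z1) ^ (k + n + 1) / ((k.factorial : ℂ) * (((n + k).choose k : ℕ) : ℂ))) atTop (𝓝 (G z1)) := by
  have hz1 : z1 ∈ ball c R := by
    rw [mem_ball, dist_eq_norm, ← norm_neg, neg_sub]; exact hR
  have hcz : c ≠ z1 := fun h => hz h.symm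
  have hcz0 : c - z1 ≠ 0 := sub_ne_zero.2 hcz
  have hn0 : 0 < ‖c - z1‖ := norm_pos_iff.2 hcz0
  -- decomposition
  have key : ∀ (n : ℕ) (G : ℂ → ℂ), DifferentiableOn ℂ G (ball c R) → ∀ k : ℕ,
      iteratedDeriv k (fun z => G z / (z - z1) ^ (n + 1)) c =
        G z1 * ((-1) ^ k * ((k.factorial : ℂ) * (((n + k).choose k : ℕ) : ℂ)) *
          ((c - z1) ^ (n + 1 + k))⁻¹) +
        iteratedDeriv k (fun z => dslope G z1 z / (z - z1) ^ n) c := by
    intro n G hG k
    have hev : (fun z => G z / (z - z1) ^ (n + 1)) =ᶠ[𝓝 c]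
        fun z => G z1 * ((z - z1) ^ (n + 1))⁻¹ + dslope G z1 z / (z - z1) ^ n := by
      filter_upwards [isOpen_ne.mem_nhds hcz] with z hz2
      have h3 : z - z1 ≠ 0 := sub_ne_zero.2 hz2
      have h4 := sub_smul_dslope G z1 z
      rw [smul_eq_mul] at h4
      have h5 : G z = G z1 + (z - z1) * dslope G z1 z := by rw [h4]; ring
      rw [h5]
      field_simp
      ring
    have hds : DifferentiableOn ℂ (dslope G z1) (ball c R) :=
      (Complex.differentiableOn_dslope (isOpen_ball.mem_nhds hz1)).2 hG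
    have hRpos : 0 < R := lt_trans hn0 hR
    have hcR : c ∈ ball c R := mem_ball_self hRpos
    have hA : ContDiffAt ℂ k (fun z : ℂ => G z1 * ((z - z1) ^ (n + 1))⁻¹) c := by
      refine contDiffAt_const.mul (ContDiffAt.inv ((contDiffAt_id.sub contDiffAt_const).pow _) ?_)
      exact pow_ne_zero _ hcz0
    have hB : ContDiffAt ℂ k (fun z : ℂ => dslope G z1 z / (z - z1) ^ n) c := by
      refine ContDiffAt.div ?_ ((contDiffAt_id.sub contDiffAt_const).pow _) (pow_ne_zero _ hcz0)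
      exact (hds.analyticAt (isOpen_ball.mem_nhds hcR)).contDiffAt
    rw [hev.iteratedDeriv_eq, iteratedDeriv_fun_add hA hB, iteratedDeriv_const_mul_field,
      iter_pole n z1 k c hcz, Nat.ascFactorial_eq_factorial_mul_choose]
    push_cast
    ring
  have main : ∀ (k n : ℕ) (X : ℂ) (g : ℂ),
      (-1) ^ k * (g * ((-1) ^ k * ((k.factorial : ℂ) * (((n + k).choose k : ℕ) : ℂ)) *
          ((c - z1) ^ (n + 1 + k))⁻¹) + X) *
      (c - z1) ^ (k + n + 1) / ((k.factorial : ℂ) * (((n + k).choose k : ℕ) : ℂ)) =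
      g + (-1) ^ k * X * (c - z1) ^ (k + n + 1) / ((k.factorial : ℂ) * (((n + k).choose k : ℕ) : ℂ)) := by
    intro k n X g
    have h1 : (k.factorial : ℂ) ≠ 0 := by exact_mod_cast k.factorial_ne_zero
    have h2 : (((n + k).choose k : ℕ) : ℂ) ≠ 0 := by exact_mod_cast (Nat.choose_pos (by omega)).ne'
    have h3 : ((-1:ℂ)) ^ k * (-1) ^ k = 1 := by rw [← mul_pow]; simp
    rw [show k + n + 1 = n + 1 + k by omega]
    field_simp
    linear_combination g * (c - z1) ^ (n + 1 + k) * h3 * 0 + (g * (k.factorial : ℂ) * (((n + k).choose k : ℕ) : ℂ)) * h3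
  induction n with
  | zero =>
    intro G hG
    have hds : DifferentiableOn ℂ (dslope G z1) (ball c R) :=
      (Complex.differentiableOn_dslope (isOpen_ball.mem_nhds hz1)).2 hG
    have h1 := (coef0 (w := c - z1) hds hn0 hR).mul_const (c - z1)
    rw [zero_mul] at h1
    have h2 := h1.const_add (G z1)
    rw [add_zero] at h2
    refine h2.congr fun k => ?_
    rw [key 0 G hG k, main]
    simp only [pow_zero, div_one, zero_add, Nat.choose_self, Nat.cast_one, mul_one, add_zero]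
    rw [pow_succ]
    ring
  | succ n ih =>
    intro G hG
    have hds : DifferentiableOn ℂ (dslope G z1) (ball c R) :=
      (Complex.differentiableOn_dslope (isOpen_ball.mem_nhds hz1)).2 hG
    have h1 := ((ih _ hds).mul (choose_ratio n)).mul_const (c - z1)
    rw [mul_zero, zero_mul] at h1
    have h2 := h1.const_add (G z1)
    rw [add_zero] at h2
    refine h2.congr fun k => ?_
    rw [key (n + 1) G hG k, main]
    have h3 : (k.factorial : ℂ) ≠ 0 := by exact_mod_cast k.factorial_ne_zero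
    have h4 : (((n + k).choose k : ℕ) : ℂ) ≠ 0 := by exact_mod_cast (Nat.choose_pos (by omega)).ne'
    have h5 : (((n + 1 + k).choose k : ℕ) : ℂ) ≠ 0 := by exact_mod_cast (Nat.choose_pos (by omega)).ne'
    rw [show k + (n + 1) + 1 = (k + n + 1) + 1 by omega, pow_succ (c - z1) (k + n + 1)]
    field_simp

end Pool.Agent.V8H22.IW
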