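import Pool.Agent.V8H22.IW.P1

/-!
# Large values in windows for functions with a meromorphic transform
-/

set_option autoImplicit false
set_option maxHeartbeats 1000000

open MeasureTheory Complex Set Filter Topology Metric
open Pool.Agent.V8H22.BSW

namespace Pool.Agent.V8H22.IW

/-- **The position of the zeros.** -/
theorem geo {Φ : ℂ → ℂ} (hΦ : Differentiable ℂ Φ) (hle2 : ∀ z, Φ z = 0 → z.re ≤ 2) (h3ne : Φ 3 ≠ 0)
    (hno : ∀ x : ℝ, 0 < x → Φ x ≠ 0) {δ : ℝ} (h0 : 0 < δ) (h1 : δ ≤ 1) {z0 : ℂ} (hz0 : Φ z0 = 0)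
    (hz0r : 0 < z0.re) {ε : ℝ} (hε : 0 < ε) :
    ∃ (c z' : ℂ) (m : ℕ) (Φ1 : ℂ → ℂ) (r R R' : ℝ), s0 δ ≤ c.re ∧ ‖c - z'‖ = r ∧ c.re - 3 ≤ r ∧ r ≤ c.re ∧
      r < R ∧ Differentiable ℂ Φ1 ∧ (∀ z, Φ z = (z - z') ^ m * Φ1 z) ∧ 1 ≤ m ∧
      (∀ z ∈ closedBall c R, Φ1 z ≠ 0) ∧ r < R' ∧ (∀ z ∈ closedBall (c.re : ℂ) R', Φ z ≠ 0) ∧
      r < c.re - (z0.re - ε) ∧ 0 < z'.re ∧ Φ z' = 0 := by
  have hΦc := hΦ.continuous
  -- the supremum of the real parts
  set S : Set ℝ := {x | ∃ z, Φ z = 0 ∧ z.re = x} with hS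
  have hSne : S.Nonempty := ⟨z0.re, z0, hz0, rfl⟩
  have hSb : BddAbove S := ⟨2, by rintro x ⟨z, hz, rfl⟩; exact hle2 z hz⟩
  set β := sSup S with hβ
  have hβle : ∀ z, Φ z = 0 → z.re ≤ β := fun z hz => le_csSup hSb ⟨z, hz, rfl⟩
  have hβ0 : 0 < β := lt_of_lt_of_le hz0r (hβle z0 hz0)
  have hβ2 : β ≤ 2 := csSup_le hSne (by rintro x ⟨z, hz, rfl⟩; exact hle2 z hz)
  -- parameters
  set σ := s0 δ + 10 with hσ
  have hσ276 : 286 ≤ σ := by have := s0_ge h0 h1; linarith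
  obtain ⟨γ, hγ, hgap⟩ := gap hΦ h3ne (β / 2) 2
  set ξ : ℝ := min (min (β / 2) 1) (min ε (γ ^ 2 / (4 * σ))) with hξ
  have hξ0 : 0 < ξ := by
    refine lt_min (lt_min (by linarith) one_pos) (lt_min hε (by positivity))
  have hξ1 : ξ ≤ β / 2 := (min_le_left _ _).trans (min_le_left _ _)
  have hξ2 : ξ ≤ 1 := (min_le_left _ _).trans (min_le_right _ _)
  have hξ3 : ξ ≤ ε := (min_le_right _ _).trans (min_le_left _ _)
  have hξ4 : ξ ≤ γ ^ 2 / (4 * σ) := (min_le_right _ _).trans (min_le_right _ _)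
  have hξ5 : 4 * σ * ξ ≤ γ ^ 2 := by
    rw [le_div_iff₀ (by positivity)] at hξ4
    linarith
  -- distance of the non-real zeros from `σ`
  have hdist : ∀ w : ℂ, Φ w = 0 → w.im ≠ 0 → σ - β + ξ < ‖w - σ‖ := by
    intro w hw him
    have hre : (w - (σ:ℂ)).re = w.re - σ := by simp
    have him' : (w - (σ:ℂ)).im = w.im := by simp
    have hwβ := hβle w hw
    rcases lt_or_ge w.re (β / 2) with h2 | h2
    · have h3 := Complex.abs_re_le_norm (w - σ)
      rw [hre, abs_of_neg (by linarith)] at h3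
      linarith
    · have h3 := hgap w hw h2 (hle2 w hw) him
      have h4 : (σ - β + ξ) ^ 2 < ‖w - σ‖ ^ 2 := by
        rw [Complex.sq_norm, Complex.normSq_apply, hre, him']
        have h5 : γ ^ 2 ≤ w.im * w.im := by
          rw [← abs_mul_abs_self w.im]
          nlinarith [abs_nonneg w.im]
        have h6 : (σ - β) ^ 2 ≤ (w.re - σ) * (w.re - σ) := by nlinarith
        nlinarith
      exact lt_of_pow_lt_pow_left₀ 2 (norm_nonneg _) h4
  have hreal : ∀ x : ℝ, Φ x = 0 → x ≤ β - ξ := by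
    intro x hx
    by_contra hcon
    push Not at hcon
    exact hno x (by linarith) hx
  have hdist2 : ∀ w : ℂ, Φ w = 0 → σ - β + ξ ≤ ‖w - σ‖ := by
    intro w hw
    by_cases him : w.im = 0
    · have hwre : w = (w.re : ℂ) := Complex.ext (by simp) (by simp [him])
      have h2 := hreal w.re (by rw [← hwre]; exact hw)
      have h3 := Complex.abs_re_le_norm (w - σ)
      have hre : (w - (σ:ℂ)).re = w.re - σ := by simp
      rw [hre, abs_of_neg (by linarith)] at h3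
      linarith
    · exact (hdist w hw him).le
  obtain ⟨x1, ⟨z1, hz1, rfl⟩, hx1⟩ := exists_lt_of_lt_csSup hSne (show β - ξ / 4 < sSup S by linarith)
  set c0 : ℂ := (σ:ℂ) + z1.im * I with hc0
  have hc0re : c0.re = σ := by simp [hc0]
  have hc0im : c0.im = z1.im := by simp [hc0]
  have hz1c : ‖z1 - c0‖ = σ - z1.re := by
    have e : z1 - c0 = ((z1.re - σ : ℝ) : ℂ) := by
      apply Complex.ext
      · simp [hc0re]
      · simp [hc0im]
    rw [e, Complex.norm_real, Real.norm_eq_abs, abs_of_neg (by have := hle2 z1 hz1; linarith)]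
    ring
  obtain ⟨z', hz', hz'1, hz'min⟩ := nearest hΦc c0 hz1
  set r0 := ‖z' - c0‖ with hr0
  have hr0a : r0 < σ - β + ξ / 4 := by rw [hz1c] at hz'1; linarith
  have hr0b : σ - β ≤ r0 := by
    have h3 := Complex.abs_re_le_norm (z' - c0)
    have hre : (z' - c0).re = z'.re - σ := by rw [Complex.sub_re, hc0re]
    rw [hre, abs_of_neg (by have := hle2 z' hz'; linarith)] at h3
    have := hβle z' hz'
    linarith
  have hr00 : 0 < r0 := by linarith
  set t : ℝ := ξ / (4 * (σ + 1)) with ht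
  have ht0 : 0 < t := by rw [ht]; positivity
  have htσ : t * (σ + 1) = ξ / 4 := by rw [ht]; field_simp
  have ht1 : t < 1 := by nlinarith
  have htr : t * r0 ≤ ξ / 4 := by
    have : r0 ≤ σ + 1 := by linarith
    calc t * r0 ≤ t * (σ + 1) := mul_le_mul_of_nonneg_left this ht0.le
      _ = ξ / 4 := htσ
  set c : ℂ := c0 + t * (z' - c0) with hc
  have hcre : c.re = σ + t * (z'.re - σ) := by
    rw [hc, Complex.add_re, Complex.re_ofReal_mul, Complex.sub_re, hc0re]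
  have hz're : z'.re ≤ 2 := hle2 z' hz'
  have hz'abs : σ - z'.re ≤ r0 := by
    have h3 := Complex.abs_re_le_norm (z' - c0)
    have hre : (z' - c0).re = z'.re - σ := by rw [Complex.sub_re, hc0re]
    rw [hre, abs_of_neg (by linarith)] at h3
    linarith
  have hcre1 : c.re ≤ σ := by rw [hcre]; nlinarith
  have hcre2 : σ - ξ / 4 ≤ c.re := by
    rw [hcre]
    have : t * (σ - z'.re) ≤ t * r0 := mul_le_mul_of_nonneg_left hz'abs ht0.le
    linarith
  have hcc0 : ‖c - c0‖ = t * r0 := by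
    rw [hc, add_sub_cancel_left, norm_mul, Complex.norm_real, Real.norm_of_nonneg ht0.le]
  set r := (1 - t) * r0 with hr
  have hrc : ‖c - z'‖ = r := by
    have e : c - z' = ((t - 1 : ℝ) : ℂ) * (z' - c0) := by rw [hc]; push_cast; ring
    rw [e, norm_mul, Complex.norm_real, Real.norm_eq_abs, abs_of_neg (by linarith)]
    rw [hr]
    ring
  have hrr0 : r ≤ r0 := by rw [hr]; nlinarith
  have hrlow : σ - β - ξ / 4 ≤ r := by rw [hr]; nlinarith
  obtain ⟨m, Φ1, hΦ1, hfac, hne1, hm⟩ := exists_fac' hΦ h3ne z'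
  have hfar : ∀ w, Φ1 w = 0 → r < ‖w - c‖ := by
    intro w hw
    have hwz : Φ w = 0 := by rw [hfac w, hw, mul_zero]
    have hwx : w ≠ z' := fun h => hne1 (by rw [← h]; exact hw)
    have h2 := perturb (a := z' - c0) (b := w - c0) ht0 ht1 (hz'min w hwz)
      (fun h => hwx (sub_left_inj.1 h))
    have e : w - c0 - t * (z' - c0) = w - c := by rw [hc]; ring
    rw [e] at h2
    exact h2
  obtain ⟨R, hR1, hR2, hR3⟩ := room hΦ1.continuous (c := c) (show r < c.re by linarith) hfar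
  have hfar' : ∀ w, Φ w = 0 → r0 < ‖w - (c.re : ℂ)‖ := by
    intro w hw
    have h2 := hdist2 w hw
    have h3 : ‖w - (σ:ℂ)‖ ≤ ‖w - (c.re : ℂ)‖ + ‖((c.re : ℝ) : ℂ) - (σ:ℂ)‖ := by
      have := norm_add_le (w - (c.re : ℂ)) (((c.re : ℝ) : ℂ) - (σ:ℂ))
      rwa [sub_add_sub_cancel] at this
    have h4 : ‖((c.re : ℝ) : ℂ) - (σ:ℂ)‖ ≤ ξ / 4 := by
      rw [← Complex.ofReal_sub, Complex.norm_real, Real.norm_eq_abs, abs_le]
      constructor <;> linarith
    linarith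
  obtain ⟨R', hR'1, hR'2, hR'3⟩ := room hΦc (c := (c.re : ℂ)) (show r0 < c.re by linarith) hfar'
  refine ⟨c, z', m, Φ1, r, R, R', by linarith, hrc, by linarith, by linarith, hR1, hΦ1, hfac, hm hz', hR3,
    by linarith, hR'3, by have := hβle z0 hz0; linarith, by linarith, hz'⟩

/-- The data: `A`, `D` are entire, the Laplace transform of `f` is `A / D` for `Re z > 2`, `A` has no zeros at the
zeros of `D` with `Re z ≥ 0`, and `D` has no zeros on the positive real axis. -/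
structure MD (f : ℝ → ℝ) (B : ℝ) (A D : ℂ → ℂ) : Prop where
  gw : Gw f B
  hA : Differentiable ℂ A
  hD : Differentiable ℂ D
  nz : ∀ z : ℂ, 2 < z.re → D z ≠ 0
  eq : ∀ z : ℂ, 2 < z.re → U f 0 z = A z / D z
  ne : ∀ z : ℂ, 0 ≤ z.re → D z = 0 → A z ≠ 0
  real : ∀ x : ℝ, 0 < x → D x ≠ 0

variable {f : ℝ → ℝ} {B : ℝ} {A D : ℂ → ℂ}

lemma MD.iter (M : MD f B A D) (k : ℕ) : ∀ z : ℂ, 2 < z.re →
    iteratedDeriv k (fun z => A z / D z) z = (-1) ^ k * U f k z := by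
  induction k with
  | zero =>
    intro z hz
    rw [iteratedDeriv_zero, ← M.eq z hz]
    simp
  | succ k ih =>
    intro z hz
    rw [iteratedDeriv_succ]
    have h1 : iteratedDeriv k (fun z => A z / D z) =ᶠ[𝓝 z] fun w => (-1) ^ k * U f k w := by
      filter_upwards [(isOpen_re 2).mem_nhds hz] with w hw using ih w hw
    rw [h1.deriv_eq, ((M.gw.hasDerivAt_U k hz).const_mul _).deriv, pow_succ]
    ring

lemma MD.U_eq (M : MD f B A D) (k : ℕ) {z : ℂ} (hz : 2 < z.re) :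
    U f k z = (-1) ^ k * iteratedDeriv k (fun z => A z / D z) z := by
  rw [M.iter k z hz, ← mul_assoc, ← mul_pow]
  simp

lemma MD.le2 (M : MD f B A D) {z : ℂ} (hz : D z = 0) : z.re ≤ 2 := by
  by_contra h
  push Not at h
  exact M.nz z h hz

/-- no zeros in a disc about a real point -/
theorem MD.mo_small (M : MD f B A D) {σ R : ℝ} (hσ : 2 < σ) (hR : 0 < R)
    (hne : ∀ z ∈ closedBall (σ:ℂ) R, D z ≠ 0) : ∃ C : ℝ, 0 ≤ C ∧ ∀ k : ℕ,
      |mo f k σ| ≤ C * (k.factorial / R ^ k) := by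
  have hd : ∀ z ∈ closedBall (σ:ℂ) R, DifferentiableAt ℂ (fun z => A z / D z) z := fun z hz =>
    (M.hA z).div (M.hD z) (hne z hz)
  have hcl : DiffContOnCl ℂ (fun z => A z / D z) (ball (σ:ℂ) R) := by
    refine DifferentiableOn.diffContOnCl fun z hz => ?_
    exact (hd z (closure_ball_subset_closedBall hz)).differentiableWithinAt
  obtain ⟨C, hC⟩ := (isCompact_sphere (σ:ℂ) R).exists_bound_of_continuousOn (f := fun z => A z / D z)
    (fun z hz => (hd z (sphere_subset_closedBall hz)).continuousAt.continuousWithinAt)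
  refine ⟨|C|, abs_nonneg C, fun k => ?_⟩
  have h1 := Complex.norm_iteratedDeriv_le_of_forall_mem_sphere_norm_le (n := k) hR hcl
    (fun z hz => (hC z hz).trans (le_abs_self C))
  rw [M.iter k _ (by simpa using hσ), U_eq_mo, norm_mul, norm_pow, norm_neg, norm_one, one_pow, one_mul,
    Complex.norm_real, Real.norm_eq_abs] at h1
  refine h1.trans (le_of_eq (by ring))

/-- the moments at a centre with one nearest zero -/
theorem MD.pole (M : MD f B A D) {c z1 : ℂ} {R : ℝ} {n : ℕ} {D1 : ℂ → ℂ} (hc : 2 < c.re)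
    (hz : z1 ≠ c) (hR : ‖c - z1‖ < R) (hD1 : Differentiable ℂ D1)
    (hfac : ∀ z, D z = (z - z1) ^ (n + 1) * D1 z) (hne : ∀ z ∈ closedBall c R, D1 z ≠ 0) :
    Tendsto (fun k : ℕ => U f k c * (c - z1) ^ (k + n + 1) /
      ((k.factorial : ℂ) * (((n + k).choose k : ℕ) : ℂ))) atTop (𝓝 (A z1 / D1 z1)) := by
  have h1 := coef_pole hz hR n (fun z => A z / D1 z) (fun z hz =>
    ((M.hA z).div (hD1 z) (hne z (ball_subset_closedBall hz))).differentiableWithinAt)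
  refine h1.congr fun k => ?_
  have h2 : (fun z => A z / D1 z / (z - z1) ^ (n + 1)) = fun z => A z / D z := by
    funext z
    rw [hfac z, div_div, mul_comm (D1 z)]
  rw [h2, M.U_eq k hc]

/-- a lower bound for the moments -/
theorem MD.lower (M : MD f B A D) {c z1 : ℂ} {r R : ℝ} {n : ℕ} {D1 : ℂ → ℂ} (hc : 2 < c.re)
    (hr : ‖c - z1‖ = r) (hr0 : 0 < r) (hR : r < R) (hD1 : Differentiable ℂ D1)
    (hfac : ∀ z, D z = (z - z1) ^ (n + 1) * D1 z) (hne : ∀ z ∈ closedBall c R, D1 z ≠ 0)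
    (hz1 : 0 ≤ z1.re) : ∃ C : ℝ, 0 < C ∧ ∀ᶠ k : ℕ in atTop,
      C * (((n + k).choose k : ℕ) : ℝ) * (k.factorial / r ^ k) ≤ ‖U f k c‖ := by
  have hz : z1 ≠ c := by
    intro h
    rw [h, sub_self, norm_zero] at hr
    linarith
  have hDz : D z1 = 0 := by rw [hfac]; simp
  have hA := M.ne z1 hz1 hDz
  have hzR : z1 ∈ closedBall c R := by
    rw [mem_closedBall, dist_eq_norm, ← norm_neg, neg_sub, hr]; exact hR.le
  have hD1z := hne z1 hzR
  have hpos : 0 < ‖A z1 / D1 z1‖ := norm_pos_iff.2 (div_ne_zero hA hD1z)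
  have h1 := (M.pole hc hz (by rw [hr]; exact hR) hD1 hfac hne).norm
  obtain ⟨L0, hL0⟩ : ∃ L0, L0 = ‖A z1 / D1 z1‖ := ⟨_, rfl⟩
  rw [← hL0] at hpos h1
  refine ⟨L0 / 2 / r ^ (n + 1), by positivity, ?_⟩
  filter_upwards [h1.eventually (lt_mem_nhds (half_lt_self hpos))] with k hk
  have hk0 : (0:ℝ) < k.factorial := by exact_mod_cast k.factorial_pos
  have hc0 : (0:ℝ) < (((n + k).choose k : ℕ) : ℝ) := by exact_mod_cast (Nat.choose_pos (by omega))
  rw [norm_div, norm_mul, norm_mul, norm_pow, hr, Complex.norm_natCast, Complex.norm_natCast,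
    lt_div_iff₀ (by positivity)] at hk
  rw [show k + n + 1 = k + (n + 1) by ring, pow_add] at hk
  have h2 : L0 / 2 / r ^ (n + 1) * (((n + k).choose k : ℕ) : ℝ) * (k.factorial / r ^ k) =
      (L0 / 2 * (k.factorial * (((n + k).choose k : ℕ) : ℝ))) / (r ^ k * r ^ (n + 1)) := by
    field_simp
  rw [h2, div_le_iff₀ (by positivity)]
  exact hk.le

/-- **Case A** -/
theorem MD.caseA (M : MD f B A D) {δ : ℝ} (h0 : 0 < δ) (h1 : δ ≤ 1) {s : ℝ} (hs : |s| = 1)
    {c z1 : ℂ} {n : ℕ} {D1 : ℂ → ℂ} {r R R' θ : ℝ} (hc : s0 δ ≤ c.re) (hr : ‖c - z1‖ = r)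
    (hr1 : c.re - 3 ≤ r) (hr2 : r ≤ c.re) (hR : r < R)
    (hD1 : Differentiable ℂ D1) (hfac : ∀ z, D z = (z - z1) ^ (n + 1) * D1 z)
    (hne : ∀ z ∈ closedBall c R, D1 z ≠ 0) (hR' : r < R')
    (hne' : ∀ z ∈ closedBall (c.re:ℂ) R', D z ≠ 0) (hz1 : 0 ≤ z1.re) (hθ : r < c.re - θ) :
    ∀ᶠ V : ℝ in atTop, ∃ v, V ≤ v ∧ v ≤ (1 + δ) * V ∧ Real.exp (θ * v) < s * f v := by
  have hc276 := (s0_ge h0 h1).trans hc
  have hr0 : 0 < r := by linarith
  have hc2 : 2 < c.re := by linarith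
  have hB := M.gw.B_nonneg
  obtain ⟨C0, hC0, hlow⟩ := M.lower hc2 hr hr0 hR hD1 hfac hne hz1
  obtain ⟨C, hC, hsm⟩ := M.mo_small hc2 (by linarith) hne'
  obtain ⟨ρ, hρ⟩ : ∃ ρ, ρ = c.re - θ := ⟨_, rfl⟩
  have hρ0 : 0 < ρ := by linarith
  have hRp' : 0 < R' := by linarith
  have hk := kV_tendsto h0 hr0
  have t2 := (tendsto_pow_atTop_nhds_zero_of_lt_one (r := r / ρ) (by positivity)
    (by rw [div_lt_one hρ0, hρ]; exact hθ)).comp hk
  have t3 := (tendsto_pow_atTop_nhds_zero_of_lt_one (r := r / R') (by positivity)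
    (by rw [div_lt_one hRp']; exact hR')).comp hk
  have t4 : Tendsto (fun V : ℝ => Real.exp (-V)) atTop (𝓝 0) := Real.tendsto_exp_neg_atTop_nhds_zero
  have t5 := ((t2.const_mul (2 / ρ)).add (t3.const_mul C)).add (t4.const_mul (8 * B / r))
  simp only [mul_zero, add_zero] at t5
  filter_upwards [t5.eventually (gt_mem_nhds hC0), hk.eventually hlow, eventually_ge_atTop 0] with V hV1 hV2 hV0
  by_contra hcon
  push Not at hcon
  have hf : ∀ u, V ≤ u → u ≤ (1 + δ) * V → s * f u ≤ Real.exp (θ * u) := fun u a b => hcon u a b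
  obtain ⟨P1, -⟩ := kV_par h0 h1 hc hr1 hr2 hV0
  have hθ' : θ < c.re := by linarith
  have a1 := win_abs M.gw P1 hs hθ' hf (z := c) rfl
  have b1 := hsm (kV δ r V)
  simp only [Function.comp] at hV1
  obtain ⟨k, hkdef⟩ : ∃ k, k = kV δ r V := ⟨_, rfl⟩
  rw [← hkdef] at a1 b1 hV1 hV2
  have hkf : (0:ℝ) < k.factorial := by exact_mod_cast k.factorial_pos
  have hch : (1:ℝ) ≤ (((n + k).choose k : ℕ) : ℝ) := by
    exact_mod_cast Nat.choose_pos (show k ≤ n + k by omega)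
  have c1 : ‖U f k c‖ ≤ (k.factorial / r ^ k) * (2 / ρ * (r / ρ) ^ k + C * (r / R') ^ k +
      8 * B / r * Real.exp (-V)) := by
    refine (a1.trans (add_le_add (add_le_add le_rfl b1) le_rfl)).trans (le_of_eq ?_)
    rw [← hρ, div_pow, div_pow, pow_succ, pow_succ]
    field_simp
    ring
  have c2 : (k.factorial / r ^ k) * (2 / ρ * (r / ρ) ^ k + C * (r / R') ^ k + 8 * B / r * Real.exp (-V)) <
      (k.factorial / r ^ k) * C0 := mul_lt_mul_of_pos_left hV1 (by positivity)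
  have c3 : (k.factorial / r ^ k) * C0 ≤ C0 * (((n + k).choose k : ℕ) : ℝ) * (k.factorial / r ^ k) := by
    have : 0 ≤ C0 * (k.factorial / r ^ k) := by positivity
    nlinarith
  linarith

/-- **Large values in windows.** -/
theorem MD.large (M : MD f B A D) {δ : ℝ} (h0 : 0 < δ) (h1 : δ ≤ 1) {s : ℝ} (hs : |s| = 1) {z0 : ℂ}
    (hz0 : D z0 = 0) (hz0r : 0 < z0.re) {ε : ℝ} (hε : 0 < ε) :
    ∀ᶠ V : ℝ in atTop, ∃ v, V ≤ v ∧ v ≤ (1 + δ) * V ∧ Real.exp ((z0.re - ε) * v) < s * f v := by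
  obtain ⟨c, z', m, Φ1, r, R, R', g1, g2, g3, g4, g5, g6, g7, g8, g9, g10, g11, g12, g13, g14⟩ :=
    geo M.hD (fun z hz => M.le2 hz) (M.nz 3 (by norm_num)) M.real h0 h1 hz0 hz0r hε
  obtain ⟨n, rfl⟩ : ∃ n, m = n + 1 := ⟨m - 1, by omega⟩
  exact M.caseA h0 h1 hs g1 g2 g3 g4 g5 g6 g7 g9 g10 g11 g13.le g12

end Pool.Agent.V8H22.IW
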