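import Pool.Agent.V8H22.IW.P2

/-!
# The behaviour on the imaginary axis, and the theorem on test functions
-/

set_option autoImplicit false
set_option maxHeartbeats 1000000

open MeasureTheory Complex Set Filter Topology Metric
open Pool.Agent.V8H22.BSW

namespace Pool.Agent.V8H22.IW

/-- the coefficient at `iγ` -/
noncomputable def cf (A D : ℂ → ℂ) (γ : ℝ) : ℂ :=
  open Classical in
  if D (γ * I) = 0 ∧ deriv D (γ * I) ≠ 0 then A (γ * I) / deriv D (γ * I) else 0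

variable {f : ℝ → ℝ} {B : ℝ} {A D : ℂ → ℂ}

lemma far {D : ℂ → ℂ} (hRH : ∀ z : ℂ, 0 < z.re → D z ≠ 0) {σ γ : ℝ} (hσ : 0 < σ) {w : ℂ} (hw : D w = 0)
    (hne : w ≠ γ * I) : σ < ‖w - (σ + γ * I)‖ := by
  have h1 : w.re ≤ 0 := by
    by_contra h
    push Not at h
    exact hRH w h hw
  have hre : (w - (σ + γ * I)).re = w.re - σ := by simp
  have him : (w - (σ + γ * I)).im = w.im - γ := by simp
  have h2 : σ ^ 2 < ‖w - (σ + γ * I)‖ ^ 2 := by
    rw [Complex.sq_norm, Complex.normSq_apply, hre, him]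
    rcases lt_or_eq_of_le h1 with h3 | h3
    · nlinarith [mul_self_nonneg (w.im - γ)]
    · have h4 : w.im ≠ γ := by
        intro h5
        exact hne (Complex.ext (by simp [h3]) (by simp [h5]))
      have h5 : 0 < (w.im - γ) * (w.im - γ) := by
        exact mul_self_pos.2 (sub_ne_zero.2 h4)
      rw [h3]
      nlinarith
  exact lt_of_pow_lt_pow_left₀ 2 (norm_nonneg _) h2

lemma center_sub (σ γ : ℝ) : ((σ:ℂ) + γ * I) - γ * I = σ := by ring

lemma fac_simple {D D1 : ℂ → ℂ} (hD1 : Differentiable ℂ D1) {z1 : ℂ} {m : ℕ}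
    (hfac : ∀ z, D z = (z - z1) ^ m * D1 z) (hm : 1 ≤ m) :
    deriv D z1 = if m = 1 then D1 z1 else 0 := by
  have e : D = fun z => (z - z1) ^ m * D1 z := funext hfac
  have h1 : HasDerivAt D ((m * (z1 - z1) ^ (m - 1) * 1) * D1 z1 + (z1 - z1) ^ m * deriv D1 z1) z1 := by
    rw [e]
    exact (((hasDerivAt_id z1).sub_const z1).pow m).mul (hD1 z1).hasDerivAt
  rw [h1.deriv, sub_self]
  split_ifs with h
  · subst h; simp
  · rw [zero_pow (show m ≠ 0 by omega), zero_pow (show m - 1 ≠ 0 by omega)]; simp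

/-- the limit of the moments at the points `σ + iγ` -/
theorem MD.axis_lim (M : MD f B A D) (hRH : ∀ z : ℂ, 0 < z.re → D z ≠ 0) {γ : ℝ}
    (hs : D (γ * I) = 0 → deriv D (γ * I) ≠ 0) {σ : ℝ} (hσ : 2 < σ) :
    Tendsto (fun k : ℕ => U f k (σ + γ * I) * (σ:ℂ) ^ (k + 1) / (k.factorial : ℂ)) atTop
      (𝓝 (cf A D γ)) := by
  have hσ0 : 0 < σ := by linarith
  have hcre : ((σ:ℂ) + γ * I).re = σ := by simp
  have hc2 : 2 < ((σ:ℂ) + γ * I).re := by rw [hcre]; exact hσ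
  by_cases hz : D (γ * I) = 0
  · have hd := hs hz
    obtain ⟨m, D1, hD1, hfac, hne1, hm⟩ := exists_fac' M.hD (M.nz 3 (by norm_num)) (γ * I)
    have hm1 := hm hz
    have hder := fac_simple hD1 hfac hm1
    have hm2 : m = 1 := by
      by_contra h
      rw [if_neg h] at hder
      exact hd hder
    subst hm2
    rw [if_pos rfl] at hder
    have hfar : ∀ w, D1 w = 0 → σ < ‖w - ((σ:ℂ) + γ * I)‖ := by
      intro w hw
      refine far hRH hσ0 (by rw [hfac w, hw, mul_zero]) fun h => hne1 (by rw [← h]; exact hw)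
    obtain ⟨R, hR1, -, hR3⟩ := room hD1.continuous (c := (σ:ℂ) + γ * I) (show σ < σ + 1 by linarith) hfar
    have hnn : ‖((σ:ℂ) + γ * I) - γ * I‖ = σ := by
      rw [center_sub, Complex.norm_real, Real.norm_of_nonneg hσ0.le]
    have hz1 : ((γ:ℂ) * I) ≠ (σ:ℂ) + γ * I := by
      intro h
      have := congrArg Complex.re h
      simp at this
      linarith
    have h1 := M.pole (n := 0) hc2 hz1 (by rw [hnn]; exact hR1) hD1 (by simpa using hfac) hR3
    rw [center_sub] at h1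
    have h2 : cf A D γ = A (γ * I) / D1 (γ * I) := by
      unfold cf
      rw [if_pos ⟨hz, hd⟩, hder]
    rw [h2]
    refine h1.congr fun k => ?_
    simp
  · have hfar : ∀ w, D w = 0 → σ < ‖w - ((σ:ℂ) + γ * I)‖ := fun w hw =>
      far hRH hσ0 hw fun h => hz (by rw [← h]; exact hw)
    obtain ⟨R, hR1, -, hR3⟩ := room M.hD.continuous (c := (σ:ℂ) + γ * I) (show σ < σ + 1 by linarith) hfar
    have hG : DifferentiableOn ℂ (fun z => A z / D z) (ball ((σ:ℂ) + γ * I) R) := fun z hz' =>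
      ((M.hA z).div (M.hD z) (hR3 z (ball_subset_closedBall hz'))).differentiableWithinAt
    have hnn : ‖(σ:ℂ)‖ = σ := by rw [Complex.norm_real, Real.norm_of_nonneg hσ0.le]
    have h1 := (coef0 (w := (σ:ℂ)) hG (by rw [hnn]; exact hσ0) (by rw [hnn]; exact hR1)).mul_const (σ:ℂ)
    rw [zero_mul] at h1
    have h2 : cf A D γ = 0 := by
      unfold cf
      rw [if_neg fun h => hz h.1]
    rw [h2]
    refine h1.congr fun k => ?_
    rw [M.U_eq k hc2, pow_succ]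
    ring

lemma kV_par' {δ σ V : ℝ} (h0 : 0 < δ) (h1 : δ ≤ 1) (hσ : s0 δ ≤ σ) (hV : 0 ≤ V) :
    Par δ σ σ V (kV δ σ V) := (kV_par h0 h1 hσ (by linarith) le_rfl hV).1

lemma U_smul (a : ℝ) (f : ℝ → ℝ) (k : ℕ) (z : ℂ) : U (fun u => a * f u) k z = a * U f k z := by
  unfold U
  rw [← integral_const_mul]
  congr 1
  funext u
  push_cast
  ring

lemma Gw.smul (h : Gw f B) (a : ℝ) : Gw (fun u => a * f u) (|a| * B) where
  meas := h.meas.const_mul a
  bd := fun u hu => by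
    rw [abs_mul, mul_assoc]
    exact mul_le_mul_of_nonneg_left (h.bd u hu) (abs_nonneg a)

/-- **A multiple zero on the axis** -/
theorem MD.multiple (M : MD f B A D) (hRH : ∀ z : ℂ, 0 < z.re → D z ≠ 0)
    (hs0 : D 0 = 0 → deriv D 0 ≠ 0) {γ : ℝ} (hz : D (γ * I) = 0) (hd : deriv D (γ * I) = 0)
    {δ : ℝ} (h0 : 0 < δ) (h1 : δ ≤ 1) {s : ℝ} (hs : |s| = 1) (κ : ℝ) :
    ∀ᶠ V : ℝ in atTop, ∃ v, V ≤ v ∧ v ≤ (1 + δ) * V ∧ κ < s * f v := by
  obtain ⟨σ, hσdef⟩ : ∃ σ, σ = s0 δ + 10 := ⟨_, rfl⟩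
  have hσs : s0 δ ≤ σ := by linarith
  have hσ276 := (s0_ge h0 h1).trans hσs
  have hσ0 : 0 < σ := by linarith
  have hcre : ((σ:ℂ) + γ * I).re = σ := by simp
  have hc2 : 2 < ((σ:ℂ) + γ * I).re := by rw [hcre]; linarith
  have hB := M.gw.B_nonneg
  obtain ⟨m, D1, hD1, hfac, hne1, hm⟩ := exists_fac' M.hD (M.nz 3 (by norm_num)) (γ * I)
  have hm1 := hm hz
  have hder := fac_simple hD1 hfac hm1
  have hm2 : 2 ≤ m := by
    by_contra h
    have h2 : m = 1 := by omega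
    rw [if_pos h2, hd] at hder
    exact hne1 hder.symm
  obtain ⟨n, rfl⟩ : ∃ n, m = (n + 1) + 1 := ⟨m - 2, by omega⟩
  have hfar : ∀ w, D1 w = 0 → σ < ‖w - ((σ:ℂ) + γ * I)‖ := by
    intro w hw
    refine far hRH hσ0 (by rw [hfac w, hw, mul_zero]) fun h => hne1 (by rw [← h]; exact hw)
  obtain ⟨R, hR1, -, hR3⟩ := room hD1.continuous (c := (σ:ℂ) + γ * I) (show σ < σ + 1 by linarith) hfar
  have hnn : ‖((σ:ℂ) + γ * I) - γ * I‖ = σ := by
    rw [center_sub, Complex.norm_real, Real.norm_of_nonneg hσ0.le]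
  obtain ⟨C0, hC0, hlow⟩ := M.lower hc2 hnn hσ0 hR1 hD1 hfac hR3 (by simp)
  -- the real moments
  have hz0 : D ((0:ℝ) * I) = 0 → deriv D ((0:ℝ) * I) ≠ 0 := by simpa using hs0
  have hax := (M.axis_lim hRH hz0 (show 2 < σ by linarith)).norm
  obtain ⟨K1, hK1⟩ := hax.bddAbove_range
  have hmo : ∀ k : ℕ, |mo f k σ| ≤ K1 * (k.factorial / σ ^ (k + 1)) := by
    intro k
    have h2 : ‖U f k (σ + ((0:ℝ):ℂ) * I) * (σ:ℂ) ^ (k + 1) / (k.factorial : ℂ)‖ ≤ K1 := hK1 ⟨k, rfl⟩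
    have hk0 : (0:ℝ) < k.factorial := by exact_mod_cast k.factorial_pos
    rw [Complex.ofReal_zero, zero_mul, add_zero, U_eq_mo, norm_div, norm_mul, norm_pow, Complex.norm_real,
      Complex.norm_real, Complex.norm_natCast, Real.norm_eq_abs, Real.norm_of_nonneg hσ0.le,
      div_le_iff₀ hk0] at h2
    rw [mul_div_assoc', le_div_iff₀ (by positivity)]
    exact h2
  obtain ⟨κ1, hκ1⟩ : ∃ κ1, κ1 = |κ| + 1 := ⟨_, rfl⟩
  have hκ0 : 0 < κ1 := by rw [hκ1]; positivity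
  have hk := kV_tendsto (δ := δ) h0 hσ0
  -- the upper bound for the coefficient
  obtain ⟨K2, hK2⟩ : ∃ K2, K2 = (2 * κ1 + |K1| + 8 * B) / σ := ⟨_, rfl⟩
  have hlarge : ∀ᶠ k : ℕ in atTop, K2 < C0 * ((k:ℝ) + 1) := by
    have h2 : Tendsto (fun k : ℕ => C0 * ((k:ℝ) + 1)) atTop atTop :=
      (tendsto_atTop_add_const_right _ _ tendsto_natCast_atTop_atTop).const_mul_atTop hC0
    exact h2.eventually_gt_atTop _
  filter_upwards [hk.eventually hlow, hk.eventually hlarge, eventually_ge_atTop 0] with V hV2 hV3 hV0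
  by_contra hcon
  push Not at hcon
  have hf : ∀ u, V ≤ u → u ≤ (1 + δ) * V → s * (κ1⁻¹ * f u) ≤ Real.exp (0 * u) := by
    intro u h2 h3
    have h4 := hcon u h2 h3
    rw [zero_mul, Real.exp_zero]
    have h5 : s * f u ≤ κ1 := by
      rw [hκ1]
      have := le_abs_self κ
      linarith
    calc s * (κ1⁻¹ * f u) = κ1⁻¹ * (s * f u) := by ring
      _ ≤ κ1⁻¹ * κ1 := mul_le_mul_of_nonneg_left h5 (by positivity)
      _ = 1 := inv_mul_cancel₀ hκ0.ne'
  have P1 := kV_par' h0 h1 hσs hV0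
  have a1 := win_abs (Gw.smul M.gw κ1⁻¹) P1 hs (show (0:ℝ) < σ by linarith) hf (z := (σ:ℂ) + γ * I) hcre
  obtain ⟨k, hkdef⟩ : ∃ k, k = kV δ σ V := ⟨_, rfl⟩
  rw [← hkdef] at a1 hV2 hV3
  have hkf : (0:ℝ) < k.factorial := by exact_mod_cast k.factorial_pos
  have hmo2 : |mo (fun u => κ1⁻¹ * f u) k σ| = κ1⁻¹ * |mo f k σ| := by
    have h2 := U_smul κ1⁻¹ f k σ
    rw [U_eq_mo, U_eq_mo, ← Complex.ofReal_mul] at h2
    have h3 : mo (fun u => κ1⁻¹ * f u) k σ = κ1⁻¹ * mo f k σ := by exact_mod_cast h2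
    rw [h3, abs_mul, abs_of_pos (by positivity)]
  rw [U_smul, norm_mul, Complex.norm_real, Real.norm_of_nonneg (by positivity : (0:ℝ) ≤ κ1⁻¹), hmo2, sub_zero,
    abs_of_pos (by positivity : (0:ℝ) < κ1⁻¹)] at a1
  have a2 : ‖U f k (σ + γ * I)‖ ≤ κ1 * (2 * (k.factorial / σ ^ (k + 1)) + κ1⁻¹ * |mo f k σ| +
      2 * (κ1⁻¹ * B) * (4 * Real.exp (-V) * (k.factorial / σ ^ (k + 1)))) := by
    have := mul_le_mul_of_nonneg_left a1 hκ0.le
    rwa [← mul_assoc, mul_inv_cancel₀ hκ0.ne', one_mul] at this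
  have hexp : Real.exp (-V) ≤ 1 := Real.exp_le_one_iff.2 (by linarith)
  have a3 : ‖U f k (σ + γ * I)‖ ≤ K2 * (k.factorial / σ ^ k) := by
    have h2 := hmo k
    have h3 : K1 * (k.factorial / σ ^ (k + 1)) ≤ |K1| * (k.factorial / σ ^ (k + 1)) :=
      mul_le_mul_of_nonneg_right (le_abs_self K1) (by positivity)
    have h4 : B * Real.exp (-V) ≤ B := mul_le_of_le_one_right hB hexp
    have h5 : B * Real.exp (-V) * (k.factorial / σ ^ (k + 1)) ≤ B * (k.factorial / σ ^ (k + 1)) :=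
      mul_le_mul_of_nonneg_right h4 (by positivity)
    have h6 : κ1 * (2 * (k.factorial / σ ^ (k + 1)) + κ1⁻¹ * |mo f k σ| +
        2 * (κ1⁻¹ * B) * (4 * Real.exp (-V) * (k.factorial / σ ^ (k + 1)))) =
        2 * κ1 * (k.factorial / σ ^ (k + 1)) + |mo f k σ| + 8 * (B * Real.exp (-V) * (k.factorial / σ ^ (k + 1))) := by
      field_simp
      ring
    have h7 : K2 * (k.factorial / σ ^ k) = (2 * κ1 + |K1| + 8 * B) * (k.factorial / σ ^ (k + 1)) := by
      rw [hK2, pow_succ]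
      field_simp
    rw [h6] at a2
    rw [h7]
    linarith
  have hch : (k:ℝ) + 1 ≤ (((n + 1 + k).choose k : ℕ) : ℝ) := by
    have h2 : k + 1 ≤ (n + 1 + k).choose k := by
      calc k + 1 = (k + 1).choose k := by rw [Nat.choose_succ_self_right]
        _ ≤ (n + 1 + k).choose k := Nat.choose_le_choose k (by omega)
    exact_mod_cast h2
  have a4 : C0 * ((k:ℝ) + 1) * (k.factorial / σ ^ k) ≤ K2 * (k.factorial / σ ^ k) := by
    refine le_trans ?_ (hV2.trans a3)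
    gcongr
  have a5 : C0 * ((k:ℝ) + 1) ≤ K2 := le_of_mul_le_mul_right a4 (by positivity)
  linarith

end Pool.Agent.V8H22.IW
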