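import Pool.Agent.V8H22.IW.P3
import Pool.Agent.V8H22.BSW.A5

/-!
# The theorem on test functions
-/

set_option autoImplicit false
set_option maxHeartbeats 1000000

open MeasureTheory Complex Set Filter Topology Metric
open Pool.Agent.V8H22.BSW

namespace Pool.Agent.V8H22.IW

/-- nonnegative trigonometric polynomials with mean value one -/
structure TP (Λ : Finset ℝ) (b : ℝ → ℂ) (P : ℝ → ℝ) : Prop where
  eq : ∀ u : ℝ, ((P u : ℝ) : ℂ) = ∑ l ∈ Λ, b l * cexp (l * u * I)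
  nonneg : ∀ u, 0 ≤ P u
  zero : (0:ℝ) ∈ Λ
  one : b 0 = 1

variable {f : ℝ → ℝ} {B : ℝ} {A D : ℂ → ℂ} {Λ : Finset ℝ} {b : ℝ → ℂ} {P : ℝ → ℝ}

lemma TP.bd (T : TP Λ b P) (u : ℝ) : P u ≤ ∑ l ∈ Λ, ‖b l‖ := by
  have h1 : ‖((P u : ℝ) : ℂ)‖ ≤ ∑ l ∈ Λ, ‖b l‖ := by
    rw [T.eq u]
    refine (norm_sum_le _ _).trans (le_of_eq (Finset.sum_congr rfl fun l _ => ?_))
    rw [norm_mul, Complex.norm_exp]
    simp
  rw [Complex.norm_real, Real.norm_of_nonneg (T.nonneg u)] at h1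
  exact h1

lemma TP.cont (T : TP Λ b P) : Continuous P := by
  have h1 : P = fun u : ℝ => (∑ l ∈ Λ, b l * cexp (l * (u:ℂ) * I)).re := by
    funext u
    rw [← T.eq u, Complex.ofReal_re]
  rw [h1]
  fun_prop

lemma TP.U_mul (T : TP Λ b P) {g : ℝ → ℝ} {B : ℝ} (h : Gw g B) (k : ℕ) {z : ℂ} (hz : 2 < z.re) :
    U (fun u => g u * P u) k z = ∑ l ∈ Λ, b l * U g k (z + ((-l : ℝ) : ℂ) * I) := by
  have h1 : ∀ l ∈ Λ, IntegrableOn (fun u : ℝ => b l * (((g u * u ^ k : ℝ) : ℂ) *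
      cexp (-((z + ((-l : ℝ) : ℂ) * I) * u)))) (Ioi 0) := fun l _ =>
    (h.int_cpx k (by simpa using hz)).const_mul (b l)
  unfold U
  calc ∫ u in Ioi (0:ℝ), ((g u * P u * u ^ k : ℝ) : ℂ) * cexp (-(z * u))
      = ∫ u in Ioi (0:ℝ), ∑ l ∈ Λ, b l * (((g u * u ^ k : ℝ) : ℂ) *
          cexp (-((z + ((-l : ℝ) : ℂ) * I) * u))) := by
        refine setIntegral_congr_fun measurableSet_Ioi fun u _ => ?_
        have e : ∀ l : ℝ, cexp (-((z + ((-l : ℝ) : ℂ) * I) * u)) = cexp (-(z * u)) * cexp (l * u * I) := by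
          intro l
          rw [← Complex.exp_add]
          congr 1
          push_cast
          ring
        simp_rw [e]
        have e2 : ((g u * P u * u ^ k : ℝ) : ℂ) = ((g u * u ^ k : ℝ) : ℂ) * ((P u : ℝ) : ℂ) := by
          push_cast; ring
        rw [e2, T.eq u, Finset.mul_sum, Finset.sum_mul]
        refine Finset.sum_congr rfl fun l _ => ?_
        ring
    _ = _ := by
        rw [integral_finsetSum _ h1]
        refine Finset.sum_congr rfl fun l _ => ?_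
        rw [integral_const_mul]

lemma one_MD : MD (fun _ => 1) 1 (fun _ => 1) (fun z => z) where
  gw := ⟨measurable_const, fun u hu => by
    rw [abs_one, one_mul]
    exact Real.one_le_exp (by linarith)⟩
  hA := differentiable_const _
  hD := differentiable_id
  nz := fun z hz h => by
    have h : z = 0 := h
    rw [h] at hz
    simp at hz
    linarith
  eq := fun z hz => by
    unfold U
    have h1 := integral_exp_mul_complex_Ioi (a := -z) (by simp; linarith) 0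
    simp only [Complex.ofReal_zero, mul_zero, Complex.exp_zero] at h1
    rw [show (1:ℂ) / z = -1 / -z by rw [neg_div_neg_eq], ← h1]
    congr 1
    funext u
    simp
  ne := fun z _ _ => one_ne_zero
  real := fun x hx => by
    have : (x:ℂ) ≠ 0 := by exact_mod_cast hx.ne'
    exact this

lemma cf_one (γ : ℝ) : cf (fun _ => 1) (fun z => z) γ = if γ = 0 then 1 else 0 := by
  unfold cf
  by_cases h : γ = 0
  · subst h
    simp
  · rw [if_neg h, if_neg]
    rintro ⟨h1, -⟩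
    have h1 : (γ:ℂ) * I = 0 := h1
    rcases mul_eq_zero.1 h1 with h2 | h2
    · exact h (by exact_mod_cast h2)
    · exact I_ne_zero h2

/-- **Test functions**, all zeros on the axis simple -/
theorem MD.psi (M : MD f B A D) (hRH : ∀ z : ℂ, 0 < z.re → D z ≠ 0)
    (hsim : ∀ γ : ℝ, D (γ * I) = 0 → deriv D (γ * I) ≠ 0) (T : TP Λ b P)
    {δ : ℝ} (h0 : 0 < δ) (h1 : δ ≤ 1) {s : ℝ} (hs : |s| = 1) {κ : ℝ}
    (hκ : κ < s * (∑ l ∈ Λ, b l * cf A D (-l)).re) :
    ∀ᶠ V : ℝ in atTop, ∃ v, V ≤ v ∧ v ≤ (1 + δ) * V ∧ κ < s * f v := by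
  obtain ⟨σ, hσdef⟩ : ∃ σ, σ = s0 δ + 10 := ⟨_, rfl⟩
  have hσs : s0 δ ≤ σ := by linarith
  have hσ276 := (s0_ge h0 h1).trans hσs
  have hσ0 : 0 < σ := by linarith
  have hσ2 : 2 < σ := by linarith
  have hB := M.gw.B_nonneg
  obtain ⟨Pm, hPm⟩ : ∃ Pm, Pm = ∑ l ∈ Λ, ‖b l‖ := ⟨_, rfl⟩
  have hPm0 : 0 ≤ Pm := by rw [hPm]; exact Finset.sum_nonneg fun _ _ => norm_nonneg _
  have hg1 : Gw (fun u => s * f u - κ) (B + |κ|) := by
    refine ⟨(M.gw.meas.const_mul s).sub_const κ, fun u hu => ?_⟩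
    have h2 := M.gw.bd u hu
    have h3 : 1 ≤ Real.exp (2 * u) := Real.one_le_exp (by linarith)
    calc |s * f u - κ| ≤ |s * f u| + |κ| := abs_sub _ _
      _ = |f u| + |κ| := by rw [abs_mul, hs, one_mul]
      _ ≤ B * Real.exp (2 * u) + |κ| * Real.exp (2 * u) := by
          have := le_mul_of_one_le_right (abs_nonneg κ) h3
          linarith
      _ = _ := by ring
  have hg : Gw (fun u => (s * f u - κ) * P u) ((B + |κ|) * Pm) := by
    refine ⟨hg1.meas.mul T.cont.measurable, fun u hu => ?_⟩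
    have h2 := hg1.bd u hu
    have h3 := T.bd u
    rw [← hPm] at h3
    rw [abs_mul, abs_of_nonneg (T.nonneg u)]
    calc |s * f u - κ| * P u ≤ ((B + |κ|) * Real.exp (2 * u)) * Pm :=
          mul_le_mul h2 h3 (T.nonneg u) (by positivity)
      _ = _ := by ring
  -- the limit of the moments
  obtain ⟨L, hL⟩ : ∃ L, L = s * (∑ l ∈ Λ, b l * cf A D (-l)).re - κ := ⟨_, rfl⟩
  have hL0 : 0 < L := by rw [hL]; linarith
  have hU1 : ∀ (k : ℕ) (z : ℂ), 2 < z.re → U (fun u => s * f u - κ) k z =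
      s * U f k z - κ * U (fun _ => 1) k z := by
    intro k z hz
    unfold U
    rw [← integral_const_mul, ← integral_const_mul,
      ← integral_sub ((M.gw.int_cpx k hz).const_mul _) ((one_MD.gw.int_cpx k hz).const_mul _)]
    congr 1
    funext u
    push_cast
    ring
  have hcl : ∀ l ∈ Λ, Tendsto (fun k : ℕ => b l * (U (fun u => s * f u - κ) k ((σ:ℂ) + ((-l : ℝ) : ℂ) * I) *
      (σ:ℂ) ^ (k + 1) / (k.factorial : ℂ))) atTop (𝓝 (b l * (s * cf A D (-l) - κ * (if -l = 0 then 1 else 0)))) := by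
    intro l _
    refine Tendsto.const_mul _ ?_
    have h2 := (M.axis_lim hRH (hsim (-l)) hσ2).const_mul (s:ℂ)
    have h3 := (one_MD.axis_lim (fun z hz h => by
      have h : z = 0 := h
      rw [h] at hz
      simp at hz) (γ := -l) (fun _ => by simp) hσ2).const_mul (κ:ℂ)
    rw [cf_one] at h3
    refine (h2.sub h3).congr fun k => ?_
    rw [hU1 k _ (by simpa using hσ2)]
    ring
  have hlim := tendsto_finsetSum Λ hcl
  have hval : (∑ l ∈ Λ, b l * (s * cf A D (-l) - κ * (if -l = 0 then 1 else 0)) : ℂ) =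
      s * (∑ l ∈ Λ, b l * cf A D (-l)) - κ := by
    have h2 : (∑ l ∈ Λ, b l * (s * cf A D (-l) - κ * (if -l = 0 then 1 else 0)) : ℂ) =
        s * (∑ l ∈ Λ, b l * cf A D (-l)) - κ * ∑ l ∈ Λ, (if l = 0 then b l else 0) := by
      rw [Finset.mul_sum, Finset.mul_sum, ← Finset.sum_sub_distrib]
      refine Finset.sum_congr rfl fun l _ => ?_
      by_cases hl : l = 0
      · subst hl
        simp
        ring
      · rw [if_neg (by simpa using hl), if_neg hl]
        ring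
    rw [h2, Finset.sum_ite_eq' Λ 0 b, if_pos T.zero, T.one, mul_one]
  rw [hval] at hlim
  have hlim2 : Tendsto (fun k : ℕ => mo (fun u => (s * f u - κ) * P u) k σ * σ ^ (k + 1) / k.factorial) atTop
      (𝓝 L) := by
    have h2 := (Complex.continuous_re.tendsto _).comp hlim
    have h3 : ((s:ℂ) * (∑ l ∈ Λ, b l * cf A D (-l)) - κ).re = L := by
      rw [Complex.sub_re, Complex.re_ofReal_mul, Complex.ofReal_re, hL]
    rw [h3] at h2
    refine h2.congr fun k => ?_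
    have h4 : (∑ l ∈ Λ, b l * (U (fun u => s * f u - κ) k ((σ:ℂ) + ((-l : ℝ) : ℂ) * I) *
        (σ:ℂ) ^ (k + 1) / (k.factorial : ℂ))) =
        U (fun u => (s * f u - κ) * P u) k (σ:ℂ) * (σ:ℂ) ^ (k + 1) / (k.factorial : ℂ) := by
      rw [T.U_mul hg1 k (by simpa using hσ2), Finset.sum_mul, Finset.sum_div]
      refine Finset.sum_congr rfl fun l _ => ?_
      ring
    simp only [Function.comp]
    rw [h4, U_eq_mo]
    have h5 : (((mo (fun u => (s * f u - κ) * P u) k σ : ℝ) : ℂ) * (σ:ℂ) ^ (k + 1) / (k.factorial : ℂ)) =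
        ((mo (fun u => (s * f u - κ) * P u) k σ * σ ^ (k + 1) / k.factorial : ℝ) : ℂ) := by
      push_cast; ring
    rw [h5, Complex.ofReal_re]
  have hk := kV_tendsto (δ := δ) h0 hσ0
  have hev1 := hk.eventually (hlim2.eventually (lt_mem_nhds (half_lt_self hL0)))
  have t4 : Tendsto (fun V : ℝ => Real.exp (-V)) atTop (𝓝 0) := Real.tendsto_exp_neg_atTop_nhds_zero
  have t5 := t4.const_mul ((B + |κ|) * Pm * 4)
  rw [mul_zero] at t5
  filter_upwards [hev1, t5.eventually (gt_mem_nhds (half_pos hL0)), eventually_ge_atTop 0] with V hV1 hV2 hV0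
  by_contra hcon
  push Not at hcon
  have hf : ∀ u, V ≤ u → u ≤ (1 + δ) * V → 1 * ((s * f u - κ) * P u) ≤ 0 := by
    intro u h2 h3
    have h4 := hcon u h2 h3
    rw [one_mul]
    exact mul_nonpos_of_nonpos_of_nonneg (by linarith) (T.nonneg u)
  have P1 := kV_par' h0 h1 hσs hV0
  have a1 := win_const hg P1 (s := 1) (by simp) hf
  obtain ⟨k, hkdef⟩ : ∃ k, k = kV δ σ V := ⟨_, rfl⟩
  rw [← hkdef] at a1 hV1
  have hkf : (0:ℝ) < k.factorial := by exact_mod_cast k.factorial_pos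
  rw [one_mul, zero_mul, zero_add, abs_zero, add_zero] at a1
  have a2 : mo (fun u => (s * f u - κ) * P u) k σ * σ ^ (k + 1) / k.factorial ≤
      (B + |κ|) * Pm * 4 * Real.exp (-V) := by
    rw [div_le_iff₀ hkf]
    calc mo (fun u => (s * f u - κ) * P u) k σ * σ ^ (k + 1)
        ≤ ((B + |κ|) * Pm * (4 * Real.exp (-V) * (k.factorial / σ ^ (k + 1)))) * σ ^ (k + 1) :=
          mul_le_mul_of_nonneg_right a1 (by positivity)
      _ = _ := by field_simp
  linarith

/-- **Main theorem.** -/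
theorem MD.main (M : MD f B A D) (hs0 : D 0 = 0 → deriv D 0 ≠ 0) (T : TP Λ b P)
    {δ : ℝ} (h0 : 0 < δ) {s : ℝ} (hs : |s| = 1) {κ : ℝ}
    (hκ : κ < s * (∑ l ∈ Λ, b l * cf A D (-l)).re) :
    ∀ᶠ V : ℝ in atTop, ∃ v, V ≤ v ∧ v ≤ (1 + δ) * V ∧ κ < s * f v := by
  have key : ∀ {δ : ℝ}, 0 < δ → δ ≤ 1 →
      ∀ᶠ V : ℝ in atTop, ∃ v, V ≤ v ∧ v ≤ (1 + δ) * V ∧ κ < s * f v := by
    intro δ h0 h1
    by_cases hRH : ∀ z : ℂ, 0 < z.re → D z ≠ 0
    · by_cases hsim : ∀ γ : ℝ, D (γ * I) = 0 → deriv D (γ * I) ≠ 0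
      · exact M.psi hRH hsim T h0 h1 hs hκ
      · push Not at hsim
        obtain ⟨γ, hz, hd⟩ := hsim
        exact M.multiple hRH hs0 hz hd h0 h1 hs κ
    · push Not at hRH
      obtain ⟨z0, hz0r, hz0⟩ := hRH
      have h2 := M.large h0 h1 hs hz0 hz0r (half_pos hz0r)
      have h3 : Tendsto (fun V : ℝ => Real.exp (z0.re / 2 * V)) atTop atTop :=
        Real.tendsto_exp_atTop.comp (tendsto_id.const_mul_atTop (half_pos hz0r))
      filter_upwards [h2, h3.eventually_ge_atTop κ] with V hV1 hV2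
      obtain ⟨v, h4, h5, h6⟩ := hV1
      refine ⟨v, h4, h5, lt_of_le_of_lt (hV2.trans (Real.exp_le_exp.2 ?_)) h6⟩
      have : z0.re - z0.re / 2 = z0.re / 2 := by ring
      rw [this]
      exact mul_le_mul_of_nonneg_left h4 (half_pos hz0r).le
  rcases le_or_gt δ 1 with h1 | h1
  · exact key h0 h1
  · filter_upwards [key one_pos le_rfl, eventually_ge_atTop 0] with V hV hV0
    obtain ⟨v, h4, h5, h6⟩ := hV
    refine ⟨v, h4, h5.trans ?_, h6⟩
    exact mul_le_mul_of_nonneg_right (by linarith) hV0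

end Pool.Agent.V8H22.IW
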