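import Pool.Agent.V8H22.IW.P4

/-!
# Finite sets almost invariant under finitely many translations, positive definite functions
-/

set_option autoImplicit false
set_option maxHeartbeats 1000000

open MeasureTheory Complex Set Filter Topology Metric

namespace Pool.Agent.V8H22.IW

open scoped ComplexConjugate

/-- sums of at most `n` copies of each element of `F` -/
noncomputable def bx (F : Finset ℝ) (n : ℕ) : Finset ℝ :=
  (Fintype.piFinset (fun _ : F => Finset.range (n + 1))).image (fun m => ∑ γ : F, (m γ : ℝ) * (γ : ℝ))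

lemma mem_bx {F : Finset ℝ} {n : ℕ} {x : ℝ} :
    x ∈ bx F n ↔ ∃ m : F → ℕ, (∀ γ, m γ ≤ n) ∧ ∑ γ : F, (m γ : ℝ) * (γ : ℝ) = x := by
  unfold bx
  simp only [Finset.mem_image, Fintype.mem_piFinset, Finset.mem_range, Nat.lt_succ_iff]

lemma bx_card (F : Finset ℝ) (n : ℕ) : (bx F n).card ≤ (n + 1) ^ F.card := by
  unfold bx
  refine Finset.card_image_le.trans (le_of_eq ?_)
  rw [Fintype.card_piFinset]
  simp

lemma bx_zero (F : Finset ℝ) (n : ℕ) : (0:ℝ) ∈ bx F n :=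
  mem_bx.2 ⟨fun _ => 0, fun _ => Nat.zero_le _, by simp⟩

lemma bx_add {F : Finset ℝ} {n : ℕ} {x γ : ℝ} (hx : x ∈ bx F n) (hγ : γ ∈ F) : x + γ ∈ bx F (n + 1) := by
  obtain ⟨m, h1, h2⟩ := mem_bx.1 hx
  refine mem_bx.2 ⟨m + Pi.single (⟨γ, hγ⟩ : F) 1, fun j => ?_, ?_⟩
  · rw [Pi.add_apply]
    have h3 : (Pi.single (⟨γ, hγ⟩ : F) 1 : F → ℕ) j ≤ 1 := by
      by_cases hj : j = ⟨γ, hγ⟩
      · subst hj; simp
      · rw [Pi.single_eq_of_ne hj]; exact Nat.zero_le _
    exact Nat.add_le_add (h1 j) h3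
  · rw [← h2]
    simp only [Pi.add_apply, Nat.cast_add, add_mul, Finset.sum_add_distrib]
    congr 1
    rw [Finset.sum_eq_single (⟨γ, hγ⟩ : F)]
    · simp
    · intro j _ hj
      rw [Pi.single_eq_of_ne hj]; simp
    · intro h; exact absurd (Finset.mem_univ _) h

/-- number of representations of `d` as a difference, over the cardinality -/
noncomputable def wt (S : Finset ℝ) (d : ℝ) : ℝ := ((S.filter (fun s => s - d ∈ S)).card : ℝ) / S.card

lemma wt_nonneg (S : Finset ℝ) (d : ℝ) : 0 ≤ wt S d := by unfold wt; positivity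

lemma wt_le_one (S : Finset ℝ) (d : ℝ) : wt S d ≤ 1 := by
  unfold wt
  refine div_le_one_of_le₀ ?_ (by positivity)
  exact_mod_cast Finset.card_filter_le _ _

/-- almost invariant sets -/
theorem folner (F : Finset ℝ) {ε : ℝ} (hε : 0 < ε) :
    ∃ S : Finset ℝ, S.Nonempty ∧ ∀ γ ∈ F, 1 - ε ≤ wt S γ := by
  have h1 : ∃ n : ℕ, ((bx F (n + 1)).card : ℝ) ≤ (1 + ε) * (bx F n).card := by
    by_contra hcon
    push Not at hcon
    have h2 : ∀ n : ℕ, (1 + ε) ^ n ≤ ((bx F n).card : ℝ) := by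
      intro n
      induction n with
      | zero =>
        rw [pow_zero]
        have : 1 ≤ (bx F 0).card := Finset.card_pos.2 ⟨0, bx_zero F 0⟩
        exact_mod_cast this
      | succ n ih =>
        rw [pow_succ, mul_comm]
        exact (mul_le_mul_of_nonneg_left ih (by linarith)).trans (hcon n).le
    have h3 : ∀ n : ℕ, (1 + ε) ^ n ≤ ((n + 1 : ℕ) : ℝ) ^ F.card := fun n =>
      (h2 n).trans (by exact_mod_cast bx_card F n)
    have h4 := tendsto_pow_const_div_const_pow_of_one_lt F.card (r := 1 + ε) (by linarith)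
    have h5 := (h4.comp (tendsto_add_atTop_nat 1)).eventually (gt_mem_nhds (show (0:ℝ) < 1 / (1 + ε) by positivity))
    obtain ⟨n, hn⟩ := h5.exists
    simp only [Function.comp] at hn
    rw [div_lt_div_iff₀ (by positivity) (by positivity), pow_succ, ← mul_assoc] at hn
    have h6 := h3 n
    have h7 : ((n + 1 : ℕ) : ℝ) ^ F.card * (1 + ε) < (1 * (1 + ε) ^ n) * (1 + ε) := hn
    have h8 := lt_of_mul_lt_mul_right h7 (by linarith)
    linarith
  obtain ⟨n, hn⟩ := h1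
  refine ⟨bx F (n + 1), ⟨0, bx_zero _ _⟩, fun γ hγ => ?_⟩
  unfold wt
  have hpos : (0:ℝ) < (bx F (n + 1)).card := by
    exact_mod_cast Finset.card_pos.2 ⟨0, bx_zero F (n + 1)⟩
  rw [le_div_iff₀ hpos]
  have h2 : (bx F n).card ≤ ((bx F (n + 1)).filter (fun s => s - γ ∈ bx F (n + 1))).card := by
    refine Finset.card_le_card_of_injOn (fun x => x + γ) (fun x hx => ?_) (fun x _ y _ h => by simpa using h)
    have hx : x ∈ bx F n := hx
    rw [Finset.mem_coe, Finset.mem_filter]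
    refine ⟨bx_add hx hγ, ?_⟩
    rw [add_sub_cancel_right]
    obtain ⟨m, h1, h2⟩ := mem_bx.1 hx
    exact mem_bx.2 ⟨m, fun j => (h1 j).trans (Nat.le_succ _), h2⟩
  have h3 : ((bx F n).card : ℝ) ≤ (((bx F (n + 1)).filter (fun s => s - γ ∈ bx F (n + 1))).card : ℝ) := by
    exact_mod_cast h2
  refine le_trans ?_ h3
  rcases le_or_gt 1 ε with h4 | h4
  · exact (mul_nonpos_of_nonpos_of_nonneg (by linarith) hpos.le).trans (by positivity)
  · calc (1 - ε) * ((bx F (n + 1)).card : ℝ) ≤ (1 - ε) * ((1 + ε) * (bx F n).card) :=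
          mul_le_mul_of_nonneg_left hn (by linarith)
      _ = (1 - ε ^ 2) * (bx F n).card := by ring
      _ ≤ 1 * (bx F n).card := mul_le_mul_of_nonneg_right (by nlinarith) (by positivity)
      _ = _ := one_mul _

/-- positive definite functions on the real line -/
def PosDef (g : ℝ → ℂ) : Prop :=
  ∀ (S : Finset ℝ) (a : ℝ → ℂ), ∃ r : ℝ, 0 ≤ r ∧
    ∑ x ∈ S, ∑ y ∈ S, a x * conj (a y) * g (x - y) = (r : ℂ)

/-- the differences -/
noncomputable def dif (S : Finset ℝ) : Finset ℝ := (S ×ˢ S).image (fun p => p.1 - p.2)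

lemma sum_dif (S : Finset ℝ) (G : ℝ → ℂ) :
    ∑ x ∈ S, ∑ y ∈ S, G (x - y) = ∑ d ∈ dif S, ((S.filter (fun s => s - d ∈ S)).card : ℂ) * G d := by
  rw [← Finset.sum_product']
  rw [← Finset.sum_fiberwise_of_maps_to (g := fun p : ℝ × ℝ => p.1 - p.2) (t := dif S)
    (fun p hp => Finset.mem_image_of_mem _ hp)]
  refine Finset.sum_congr rfl fun d _ => ?_
  have h1 : ∀ p ∈ (S ×ˢ S).filter (fun p : ℝ × ℝ => p.1 - p.2 = d), G (p.1 - p.2) = G d := by
    intro p hp
    rw [(Finset.mem_filter.1 hp).2]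
  rw [Finset.sum_congr rfl h1, Finset.sum_const, nsmul_eq_mul]
  congr 2
  refine Finset.card_bij' (fun p _ => p.1) (fun s _ => (s, s - d)) ?_ ?_ ?_ ?_
  · intro p hp
    obtain ⟨h2, h3⟩ := Finset.mem_filter.1 hp
    rw [Finset.mem_product] at h2
    refine Finset.mem_filter.2 ⟨h2.1, ?_⟩
    rw [← h3, sub_sub_cancel]
    exact h2.2
  · intro s hs
    obtain ⟨h2, h3⟩ := Finset.mem_filter.1 hs
    refine Finset.mem_filter.2 ⟨Finset.mem_product.2 ⟨h2, h3⟩, ?_⟩
    simp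
  · intro p hp
    obtain ⟨h2, h3⟩ := Finset.mem_filter.1 hp
    ext
    · rfl
    · simp [← h3]
  · intro s hs
    rfl

/-- the test function -/
noncomputable def tp (S : Finset ℝ) (g : ℝ → ℂ) (u : ℝ) : ℝ :=
  ((∑ x ∈ S, ∑ y ∈ S, cexp (x * u * I) * conj (cexp (y * u * I)) * g (x - y)) / (S.card : ℂ)).re

lemma tp_TP {S : Finset ℝ} (hS : S.Nonempty) {g : ℝ → ℂ} (hg : PosDef g) (hg0 : g 0 = 1) :
    TP (dif S) (fun d => ((wt S d : ℝ) : ℂ) * g d) (tp S g) := by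
  have hc : (0:ℝ) < S.card := by exact_mod_cast Finset.card_pos.2 hS
  have hc' : (S.card : ℂ) ≠ 0 := by
    have := hc.ne'
    exact_mod_cast this
  have key : ∀ u : ℝ, ∃ r : ℝ, 0 ≤ r ∧
      (∑ x ∈ S, ∑ y ∈ S, cexp (x * u * I) * conj (cexp (y * u * I)) * g (x - y)) / (S.card : ℂ) = (r : ℂ) := by
    intro u
    obtain ⟨r, hr, h⟩ := hg S (fun x => cexp (x * u * I))
    refine ⟨r / S.card, by positivity, ?_⟩
    rw [h]; push_cast; rfl
  refine ⟨fun u => ?_, fun u => ?_, ?_, ?_⟩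
  · obtain ⟨r, hr, h⟩ := key u
    unfold tp
    rw [h, Complex.ofReal_re, ← h]
    have e : ∀ x y : ℝ, cexp (x * u * I) * conj (cexp (y * u * I)) * g (x - y) =
        (fun d : ℝ => cexp (d * u * I) * g d) (x - y) := by
      intro x y
      have e1 : conj (cexp (y * u * I)) = cexp (-(y * u * I)) := by
        rw [← Complex.exp_conj]
        congr 1
        simp
      simp only
      rw [e1, ← Complex.exp_add]
      congr 2
      push_cast
      ring
    simp_rw [e]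
    rw [sum_dif S (fun d : ℝ => cexp (d * u * I) * g d), Finset.sum_div]
    refine Finset.sum_congr rfl fun d _ => ?_
    unfold wt
    push_cast
    ring
  · obtain ⟨r, hr, h⟩ := key u
    unfold tp
    rw [h, Complex.ofReal_re]
    exact hr
  · obtain ⟨s, hs⟩ := hS
    exact Finset.mem_image.2 ⟨(s, s), Finset.mem_product.2 ⟨hs, hs⟩, by simp⟩
  · rw [hg0, mul_one]
    have : wt S 0 = 1 := by
      unfold wt
      simp only [sub_zero, Finset.filter_mem_eq_inter, Finset.inter_self]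
      exact div_self hc.ne'
    rw [this, Complex.ofReal_one]

lemma wt_zero {S : Finset ℝ} {d : ℝ} (hd : d ∉ dif S) : wt S d = 0 := by
  unfold wt
  have : S.filter (fun s => s - d ∈ S) = ∅ := by
    refine Finset.filter_eq_empty_iff.2 fun s hs h => hd ?_
    exact Finset.mem_image.2 ⟨(s, s - d), Finset.mem_product.2 ⟨hs, h⟩, by simp⟩
  rw [this]
  simp

lemma approx {G : ℝ → ℂ} (hG : Summable G) {ε : ℝ} (hε : 0 < ε) :
    ∃ S : Finset ℝ, S.Nonempty ∧ ‖(∑ d ∈ dif S, ((wt S d : ℝ) : ℂ) * G d) - ∑' d, G d‖ < ε := by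
  have hGn : Summable (fun d => ‖G d‖) := hG.norm
  obtain ⟨K, hKdef⟩ : ∃ K, K = ∑' d, ‖G d‖ := ⟨_, rfl⟩
  have hK0 : 0 ≤ K := by rw [hKdef]; exact tsum_nonneg fun _ => norm_nonneg _
  -- the tail
  have h1 := (tendsto_order.1 hGn.hasSum).1 (K - ε / 2) (by rw [← hKdef]; linarith)
  obtain ⟨F, hF⟩ := h1.exists
  obtain ⟨S, hS, hSF⟩ := folner F (ε := ε / (2 * (K + 1))) (by positivity)
  refine ⟨S, hS, ?_⟩
  have h2 : Summable (fun d => ((wt S d : ℝ) : ℂ) * G d) := by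
    refine Summable.of_norm_bounded hGn fun d => ?_
    rw [norm_mul, Complex.norm_real, Real.norm_of_nonneg (wt_nonneg S d)]
    exact mul_le_of_le_one_left (norm_nonneg _) (wt_le_one S d)
  have h3 : ∑ d ∈ dif S, ((wt S d : ℝ) : ℂ) * G d = ∑' d, ((wt S d : ℝ) : ℂ) * G d := by
    rw [tsum_eq_sum]
    intro d hd
    rw [wt_zero hd]; simp
  rw [h3, ← h2.tsum_sub hG]
  have h4 : ∀ d, ‖((wt S d : ℝ) : ℂ) * G d - G d‖ = (1 - wt S d) * ‖G d‖ := by
    intro d
    have : ((wt S d : ℝ) : ℂ) * G d - G d = -(((1 - wt S d : ℝ) : ℂ) * G d) := by push_cast; ring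
    rw [this, norm_neg, norm_mul, Complex.norm_real, Real.norm_of_nonneg (by linarith [wt_le_one S d])]
  have h5 : Summable (fun d => (1 - wt S d) * ‖G d‖) := by
    refine Summable.of_nonneg_of_le (fun d => mul_nonneg (by linarith [wt_le_one S d]) (norm_nonneg _))
      (fun d => ?_) hGn
    exact mul_le_of_le_one_left (norm_nonneg _) (by linarith [wt_nonneg S d])
  have h6 : ‖∑' d, (((wt S d : ℝ) : ℂ) * G d - G d)‖ ≤ ∑' d, (1 - wt S d) * ‖G d‖ := by
    refine (norm_tsum_le_tsum_norm ?_).trans (le_of_eq ?_)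
    · simp_rw [h4]; exact h5
    · simp_rw [h4]
  refine h6.trans_lt ?_
  have h7 : ∑' d, (1 - wt S d) * ‖G d‖ ≤ ∑ d ∈ F, (1 - wt S d) * ‖G d‖ + (K - ∑ d ∈ F, ‖G d‖) := by
    have e1 := h5.sum_add_tsum_subtype_compl F
    have e2 := hGn.sum_add_tsum_subtype_compl F
    rw [← hKdef] at e2
    have e3 : ∑' (x : { x // x ∉ F }), (1 - wt S x) * ‖G x‖ ≤ ∑' (x : { x // x ∉ F }), ‖G x‖ := by
      refine Summable.tsum_le_tsum (fun d => ?_) (h5.subtype _) (hGn.subtype _)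
      exact mul_le_of_le_one_left (norm_nonneg _) (by linarith [wt_nonneg S d])
    linarith
  have h8 : ∑ d ∈ F, (1 - wt S d) * ‖G d‖ ≤ ε / (2 * (K + 1)) * K := by
    calc ∑ d ∈ F, (1 - wt S d) * ‖G d‖ ≤ ∑ d ∈ F, ε / (2 * (K + 1)) * ‖G d‖ := by
          refine Finset.sum_le_sum fun d hd => ?_
          refine mul_le_mul_of_nonneg_right ?_ (norm_nonneg _)
          linarith [hSF d hd]
      _ = ε / (2 * (K + 1)) * ∑ d ∈ F, ‖G d‖ := by rw [Finset.mul_sum]
      _ ≤ ε / (2 * (K + 1)) * K := by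
          refine mul_le_mul_of_nonneg_left ?_ (by positivity)
          rw [hKdef]
          exact hGn.sum_le_tsum F (fun _ _ => norm_nonneg _)
  have h9 : ε / (2 * (K + 1)) * K < ε / 2 := by
    rw [div_mul_eq_mul_div, div_lt_div_iff₀ (by positivity) (by norm_num)]
    nlinarith
  linarith

lemma PosDef.neg {g : ℝ → ℂ} (hg : PosDef g) : PosDef (fun x => g (-x)) := by
  intro S a
  obtain ⟨r, hr, h⟩ := hg S (fun x => conj (a x))
  refine ⟨r, hr, ?_⟩
  rw [← h, Finset.sum_comm]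
  refine Finset.sum_congr rfl fun x _ => Finset.sum_congr rfl fun y _ => ?_
  simp only [Complex.conj_conj, neg_sub]
  ring

variable {f : ℝ → ℝ} {B : ℝ} {A D : ℂ → ℂ}

/-- **The theorem for positive definite functions.** -/
theorem MD.pd (M : MD f B A D) (hs0 : D 0 = 0 → deriv D 0 ≠ 0) {g : ℝ → ℂ} (hg : PosDef g) (hg0 : g 0 = 1)
    (hsum : Summable (fun γ : ℝ => g γ * cf A D γ))
    {δ : ℝ} (h0 : 0 < δ) {s : ℝ} (hs : |s| = 1) {κ : ℝ}
    (hκ : κ < s * (∑' γ : ℝ, g γ * cf A D γ).re) :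
    ∀ᶠ V : ℝ in atTop, ∃ v, V ≤ v ∧ v ≤ (1 + δ) * V ∧ κ < s * f v := by
  obtain ⟨G, hG⟩ : ∃ G : ℝ → ℂ, G = fun γ => g (-γ) * cf A D (-γ) := ⟨_, rfl⟩
  have hGs : Summable G := by
    rw [hG]
    exact hsum.comp_injective neg_injective
  have hGt : ∑' γ, G γ = ∑' γ : ℝ, g γ * cf A D γ := by
    rw [hG]
    exact (Equiv.neg ℝ).tsum_eq (fun γ : ℝ => g γ * cf A D γ)
  obtain ⟨S, hS, hap⟩ := approx hGs (ε := s * (∑' γ : ℝ, g γ * cf A D γ).re - κ) (by linarith)
  refine M.main hs0 (tp_TP hS hg.neg (by simpa using hg0)) h0 hs (κ := κ) ?_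
  have e : ∑ l ∈ dif S, ((wt S l : ℝ) : ℂ) * g (-l) * cf A D (-l) = ∑ d ∈ dif S, ((wt S d : ℝ) : ℂ) * G d := by
    rw [hG]
    refine Finset.sum_congr rfl fun d _ => ?_
    ring
  rw [e]
  rw [hGt] at hap
  have h1 := Complex.abs_re_le_norm ((∑ d ∈ dif S, ((wt S d : ℝ) : ℂ) * G d) - ∑' γ : ℝ, g γ * cf A D γ)
  rw [Complex.sub_re] at h1
  obtain ⟨p, hp⟩ : ∃ p, p = (∑ d ∈ dif S, ((wt S d : ℝ) : ℂ) * G d).re := ⟨_, rfl⟩
  obtain ⟨q, hq⟩ : ∃ q, q = (∑' γ : ℝ, g γ * cf A D γ).re := ⟨_, rfl⟩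
  rw [← hp, ← hq] at h1
  rw [← hq] at hap
  rw [← hp]
  have h2 : |s * (p - q)| < s * q - κ := by
    rw [abs_mul, hs, one_mul]
    linarith
  have h3 := (abs_lt.1 h2).1
  nlinarith

end Pool.Agent.V8H22.IW
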