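import Pool.Agent.V8H22.IW.P5
import Pool.Agent.V8H22.OSC.Z5

/-!
# The data for the Mertens function and the Liouville function
-/

set_option autoImplicit false
set_option maxHeartbeats 1000000

open MeasureTheory Complex Set Filter Topology Metric
open H353 (FF FF_bound FF_real_ne FF_conj)
open Pool.Agent.W190 (SF)
open Pool.Agent.R303.SW (muR laR laR_abs LS_la)
open Pool.Agent.V8H22.BSW Pool.Agent.V8H22.OSC

namespace Pool.Agent.V8H22.IW

lemma SF_trivial {a : ℕ → ℝ} (ha : ∀ n, |a n| ≤ 1) {x : ℝ} (hx : 0 ≤ x) : |SF a x| ≤ x := by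
  unfold SF
  refine (Finset.abs_sum_le_sum_abs _ _).trans ?_
  refine (Finset.sum_le_sum fun n _ => ha n).trans ?_
  simp only [Finset.sum_const, Nat.card_Icc, nsmul_eq_mul, mul_one, Nat.add_sub_cancel]
  exact Nat.floor_le hx

lemma SF_bd1 {a : ℕ → ℝ} (ha : ∀ n, |a n| ≤ 1) : ∀ x : ℝ, 1 ≤ x → |SF a x| ≤ 1 * x ^ ((1:ℝ) / 2 + 1 / 2) := by
  intro x hx
  have : (1:ℝ) / 2 + 1 / 2 = 1 := by norm_num
  rw [this, Real.rpow_one, one_mul]
  exact SF_trivial ha (by linarith)

lemma fS_Gw {a : ℕ → ℝ} (ha : ∀ n, |a n| ≤ 1) : Gw (fS a) 1 := by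
  refine ⟨fS_meas a, fun u hu => ?_⟩
  have h1 := fS_bound (SF_bd1 ha) hu.le
  refine h1.trans ?_
  rw [one_mul, one_mul]
  exact Real.exp_le_exp.2 (by linarith)

lemma U_fS {a : ℕ → ℝ} (ha : ∀ n, |a n| ≤ 1)
    (hs : ∀ s : ℂ, 1 < s.re → LSeriesSummable (fun n => ((a n : ℝ) : ℂ)) s) {z : ℂ} (hz : 2 < z.re) :
    (z + 1 / 2) * U (fS a) 0 z = LSeries (fun n => ((a n : ℝ) : ℂ)) (z + 1 / 2) := by
  have h1 := Lap_fS (a := a) (by norm_num) (by norm_num) (SF_bd1 ha) hs (z := z) (by linarith)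
  have hWI : WI (Ioi 0) (fS a) z.re :=
    WI_pos (fS_meas a) (M := 1) (a := 1 / 2) (by linarith) (fS_Gr (SF_bd1 ha) (1 / 2) le_rfl)
  rw [Lap_univ_eq (fS_meas a) (fun v hv => fS_neg a hv) hWI] at h1
  rw [h1]
  congr 1
  unfold U Lap
  refine setIntegral_congr_fun measurableSet_Ioi fun t _ => ?_
  simp only [pow_zero, mul_one, neg_mul]

lemma DDz_ne {z : ℂ} (hz : 1 / 2 ≤ z.re) : FF (z + 1 / 2) ≠ 0 := by
  intro h
  have h1 := ZU.J_g2b.FF_zero_re h
  simp at h1
  linarith

lemma half_ne' {z : ℂ} (h : 0 ≤ z.re) : z + 1 / 2 ≠ 0 := half_ne (by linarith)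

/-- numerator and denominator for the Mertens function -/
noncomputable def aM (z : ℂ) : ℂ := z - 1 / 2
noncomputable def dM (z : ℂ) : ℂ := (z + 1 / 2) * FF (z + 1 / 2)

lemma muR_abs (n : ℕ) : |muR n| ≤ 1 := by
  have h1 := ArithmeticFunction.abs_moebius_le_one (n := n)
  unfold muR
  exact_mod_cast h1

lemma FF_half_diff : Differentiable ℂ (fun z : ℂ => FF (z + 1 / 2)) := DD_diff

theorem mu_MD : MD (fS muR) 1 aM dM where
  gw := fS_Gw muR_abs
  hA := by unfold aM; fun_prop
  hD := by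
    unfold dM
    exact Differentiable.mul (by fun_prop) FF_half_diff
  nz := fun z hz => mul_ne_zero (half_ne' (by linarith)) (DDz_ne (by linarith))
  eq := fun z hz => by
    have h1 := U_fS muR_abs (fun s hs => ArithmeticFunction.LSeriesSummable_moebius_iff.2 hs) hz
    have hre : (z + 1 / 2).re = z.re + 1 / 2 := by simp
    have h2 := ArithmeticFunction.LSeries_zeta_mul_Lseries_moebius (s := z + 1 / 2)
      (by rw [hre]; linarith)
    rw [ArithmeticFunction.LSeries_zeta_eq_riemannZeta (by rw [hre]; linarith)] at h2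
    have h3 : LSeries (fun n => ((muR n : ℝ) : ℂ)) (z + 1 / 2) =
        LSeries (fun n => ((ArithmeticFunction.moebius n : ℤ) : ℂ)) (z + 1 / 2) := by
      refine LSeries_congr (fun {n} _ => ?_) _
      simp [muR]
    rw [h3] at h1
    have hne : z + 1 / 2 ≠ 1 := by
      intro h
      have := congrArg Complex.re h
      rw [hre] at this
      simp at this
      linarith
    have hd : dM z ≠ 0 := mul_ne_zero (half_ne' (by linarith)) (DDz_ne (by linarith))
    rw [eq_div_iff hd]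
    unfold dM aM
    rw [show FF (z + 1 / 2) = (z + 1 / 2 - 1) * riemannZeta (z + 1 / 2) from ZU.J_g2b.FF_ne hne]
    rw [← h1] at h2
    linear_combination (z + 1 / 2 - 1) * h2
  ne := fun z hz h => by
    unfold aM
    intro h2
    have h3 : z = 1 / 2 := sub_eq_zero.1 h2
    have h4 : FF (z + 1 / 2) = 0 := by
      rcases mul_eq_zero.1 h with h | h
      · exact absurd h (half_ne' hz)
      · exact h
    exact DDz_ne (by rw [h3]; norm_num) h4
  real := fun x hx => by
    refine mul_ne_zero (half_ne' (by simpa using hx.le)) ?_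
    have := FF_real_ne (x + 1 / 2) (by linarith)
    push_cast at this
    exact this

lemma mu_D0 : dM 0 ≠ 0 := by
  unfold dM
  refine mul_ne_zero (by norm_num) ?_
  have := FF_real_ne (1 / 2) (by norm_num)
  push_cast at this
  rwa [zero_add]

/-- numerator and denominator for the Liouville function -/
noncomputable def aL (z : ℂ) : ℂ := (z - 1 / 2) * FF (2 * z + 1)
noncomputable def dL (z : ℂ) : ℂ := 2 * z * ((z + 1 / 2) * FF (z + 1 / 2))

lemma FF2_ne {z : ℂ} (hz : 0 ≤ z.re) : FF (2 * z + 1) ≠ 0 := by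
  intro h
  have h1 := ZU.J_g2b.FF_zero_re h
  simp at h1
  linarith

theorem la_MD : MD (fS laR) 1 aL dL where
  gw := fS_Gw laR_abs
  hA := by
    unfold aL
    exact Differentiable.mul (by fun_prop) (ZU.J_g2b.FF_diff.comp (by fun_prop))
  hD := by
    unfold dL
    exact Differentiable.mul (by fun_prop) (Differentiable.mul (by fun_prop) FF_half_diff)
  nz := fun z hz => by
    have hz0 : z ≠ 0 := by rintro rfl; simp at hz; linarith
    exact mul_ne_zero (mul_ne_zero two_ne_zero hz0)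
      (mul_ne_zero (half_ne' (by linarith)) (DDz_ne (by linarith)))
  eq := fun z hz => by
    have h1 := U_fS laR_abs (fun s hs => LSeriesSummable_of_bounded_of_one_lt_re (m := 1) (fun n _ => by
        rw [Complex.norm_real]; exact laR_abs n) hs) hz
    have hre : (z + 1 / 2).re = z.re + 1 / 2 := by simp
    have h2 := LS_la (s := z + 1 / 2) (by rw [hre]; linarith)
    have hne : z + 1 / 2 ≠ 1 := by
      intro h
      have := congrArg Complex.re h
      rw [hre] at this
      simp at this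
      linarith
    have hne0 := half_ne' (z := z) (by linarith)
    have hz0 : z ≠ 0 := by rintro rfl; simp at hz; linarith
    have h2z : 2 * z + 1 ≠ 1 := by
      intro h
      apply hz0
      have : 2 * z = 0 := by linear_combination h
      simpa using this
    have hF2 : FF (2 * z + 1) = 2 * z * riemannZeta (2 * (z + 1 / 2)) := by
      rw [show FF (2 * z + 1) = (2 * z + 1 - 1) * riemannZeta (2 * z + 1) from ZU.J_g2b.FF_ne h2z]
      rw [show 2 * (z + 1 / 2) = 2 * z + 1 by ring]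
      ring
    have hd : dL z ≠ 0 := mul_ne_zero (mul_ne_zero two_ne_zero hz0)
      (mul_ne_zero (half_ne' (by linarith)) (DDz_ne (by linarith)))
    rw [eq_div_iff hd]
    unfold dL aL
    rw [hF2, show FF (z + 1 / 2) = (z + 1 / 2 - 1) * riemannZeta (z + 1 / 2) from ZU.J_g2b.FF_ne hne,
      ← h2, ← h1]
    ring
  ne := fun z hz h => by
    refine mul_ne_zero (fun h2 => ?_) (FF2_ne hz)
    have h3 : z = 1 / 2 := sub_eq_zero.1 h2
    have h4 : FF (z + 1 / 2) = 0 := by
      rcases mul_eq_zero.1 h with h | h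
      · rcases mul_eq_zero.1 h with h | h
        · exact absurd h two_ne_zero
        · rw [h] at h3; norm_num at h3
      · rcases mul_eq_zero.1 h with h | h
        · exact absurd h (half_ne' hz)
        · exact h
    exact DDz_ne (by rw [h3]; norm_num) h4
  real := fun x hx => by
    have hx0 : (x:ℂ) ≠ 0 := by exact_mod_cast hx.ne'
    refine mul_ne_zero (mul_ne_zero two_ne_zero hx0) (mul_ne_zero (half_ne' (by simpa using hx.le)) ?_)
    have := FF_real_ne (x + 1 / 2) (by linarith)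
    push_cast at this
    exact this

/-- the derivatives at the zeros -/
lemma FF_deriv_at {s : ℂ} (hs : s ≠ 1) (h : riemannZeta s = 0) : HasDerivAt FF ((s - 1) * deriv riemannZeta s) s := by
  have h1 : HasDerivAt (fun v => (v - 1) * riemannZeta v) (1 * riemannZeta s + (s - 1) * deriv riemannZeta s) s :=
    ((hasDerivAt_id s).sub_const 1).mul (differentiableAt_riemannZeta hs).hasDerivAt
  rw [h, mul_zero, zero_add] at h1
  refine h1.congr_of_eventuallyEq ?_
  filter_upwards [isOpen_ne.mem_nhds hs] with v hv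
  exact ZU.J_g2b.FF_ne hv

lemma half_I_ne (γ : ℝ) : (γ:ℂ) * I + 1 / 2 ≠ 1 := by
  intro h
  have := congrArg Complex.re h
  norm_num at this

lemma half_I_ne0 (γ : ℝ) : (γ:ℂ) * I + 1 / 2 ≠ 0 := half_ne' (by simp)

lemma FF_zero_iff (γ : ℝ) : FF ((γ:ℂ) * I + 1 / 2) = 0 ↔ riemannZeta (1 / 2 + γ * I) = 0 := by
  rw [show FF ((γ:ℂ) * I + 1 / 2) = ((γ:ℂ) * I + 1 / 2 - 1) * riemannZeta ((γ:ℂ) * I + 1 / 2) from
    ZU.J_g2b.FF_ne (half_I_ne γ), add_comm (1 / 2 : ℂ)]
  constructor
  · intro h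
    rcases mul_eq_zero.1 h with h | h
    · exact absurd (sub_eq_zero.1 h) (half_I_ne γ)
    · exact h
  · intro h
    rw [h, mul_zero]

lemma dM_deriv {γ : ℝ} (h : riemannZeta (1 / 2 + γ * I) = 0) :
    deriv dM (γ * I) = (γ * I + 1 / 2) * ((γ * I + 1 / 2 - 1) * deriv riemannZeta (1 / 2 + γ * I)) := by
  have h' : riemannZeta (γ * I + 1 / 2) = 0 := by rw [add_comm]; exact h
  have h1 : HasDerivAt (fun z : ℂ => FF (z + 1 / 2)) ((γ * I + 1 / 2 - 1) * deriv riemannZeta (γ * I + 1 / 2))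
      (γ * I) := (FF_deriv_at (half_I_ne γ) h').comp_add_const _ _
  have h2 : HasDerivAt dM (1 * FF (γ * I + 1 / 2) + (γ * I + 1 / 2) *
      ((γ * I + 1 / 2 - 1) * deriv riemannZeta (γ * I + 1 / 2))) (γ * I) :=
    ((hasDerivAt_id ((γ:ℂ) * I)).add_const (1 / 2)).mul h1
  rw [h2.deriv, (FF_zero_iff γ).2 h, mul_zero, zero_add, add_comm (1 / 2 : ℂ)]

/-- the coefficient `1 / (ρ ζ'(ρ))` -/
noncomputable def cM (γ : ℝ) : ℂ :=
  open Classical in
  if riemannZeta (1 / 2 + γ * I) = 0 then 1 / ((1 / 2 + γ * I) * deriv riemannZeta (1 / 2 + γ * I)) else 0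

lemma cf_M (γ : ℝ) : cf aM dM γ = cM γ := by
  unfold cf cM
  by_cases h : riemannZeta (1 / 2 + γ * I) = 0
  · rw [if_pos h]
    have hD : dM (γ * I) = 0 := by
      unfold dM
      rw [(FF_zero_iff γ).2 h, mul_zero]
    have e1 : (γ:ℂ) * I + 1 / 2 - 1 = γ * I - 1 / 2 := by ring
    have hne : (γ:ℂ) * I - 1 / 2 ≠ 0 := by
      rw [← e1, sub_ne_zero]; exact half_I_ne γ
    by_cases hd : deriv riemannZeta (1 / 2 + γ * I) = 0
    · rw [if_neg, hd]
      · simp
      · rintro ⟨-, h2⟩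
        rw [dM_deriv h, hd] at h2
        simp at h2
    · have hd2 : deriv dM (γ * I) ≠ 0 := by
        rw [dM_deriv h, e1]
        exact mul_ne_zero (half_I_ne0 γ) (mul_ne_zero hne hd)
      rw [if_pos ⟨hD, hd2⟩, dM_deriv h, e1]
      unfold aM
      have h0 := half_I_ne0 γ
      rw [add_comm ((γ:ℂ) * I)] at h0
      rw [add_comm ((γ:ℂ) * I)]
      rw [div_eq_div_iff (mul_ne_zero h0 (mul_ne_zero hne hd)) (mul_ne_zero h0 hd)]
      ring
  · rw [if_neg h, if_neg]
    rintro ⟨h2, -⟩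
    unfold dM at h2
    rcases mul_eq_zero.1 h2 with h2 | h2
    · exact half_I_ne0 γ h2
    · exact h ((FF_zero_iff γ).1 h2)

lemma dL_eq (z : ℂ) : dL z = 2 * z * dM z := rfl

lemma dM_diff : Differentiable ℂ dM := mu_MD.hD

lemma dL_deriv (z : ℂ) : deriv dL z = 2 * dM z + 2 * z * deriv dM z := by
  have h1 : HasDerivAt dL (2 * 1 * dM z + 2 * z * deriv dM z) z :=
    ((hasDerivAt_id z).const_mul 2).mul (dM_diff z).hasDerivAt
  rw [h1.deriv, mul_one]

lemma la_D0 : dL 0 = 0 → deriv dL 0 ≠ 0 := by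
  intro _
  rw [dL_deriv, mul_zero, zero_mul, add_zero]
  exact mul_ne_zero two_ne_zero mu_D0

/-- the coefficient `ζ(2ρ) / (ρ ζ'(ρ))`, and `1/ζ(1/2)` at `γ = 0` -/
noncomputable def cL (γ : ℝ) : ℂ :=
  open Classical in
  if γ = 0 then 1 / riemannZeta (1 / 2)
  else if riemannZeta (1 / 2 + γ * I) = 0 then
    riemannZeta (1 + 2 * γ * I) / ((1 / 2 + γ * I) * deriv riemannZeta (1 / 2 + γ * I)) else 0

lemma cf_L (γ : ℝ) : cf aL dL γ = cL γ := by
  unfold cL
  by_cases hγ : γ = 0
  · rw [if_pos hγ]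
    unfold cf
    subst hγ
    simp only [Complex.ofReal_zero, zero_mul]
    have hD : dL 0 = 0 := by rw [dL_eq]; simp
    rw [if_pos ⟨hD, la_D0 hD⟩, dL_deriv]
    unfold aL dM
    have h1 : FF 1 = 1 := ZU.J_g2b.FF_one
    have h2 : FF (1 / 2) = (1 / 2 - 1) * riemannZeta (1 / 2) := ZU.J_g2b.FF_ne (by norm_num)
    have h3 : riemannZeta (1 / 2) ≠ 0 := by
      intro h
      have h4 := FF_real_ne (1 / 2) (by norm_num)
      push_cast at h4
      rw [h2, h, mul_zero] at h4
      exact h4 rfl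
    rw [mul_zero, zero_add, zero_add, h1, h2, zero_mul, add_zero]
    have h5 : (1 / 2 - 1) * riemannZeta (1 / 2) ≠ 0 := mul_ne_zero (by norm_num) h3
    rw [div_eq_div_iff (mul_ne_zero two_ne_zero (mul_ne_zero (by norm_num) h5)) h3]
    ring
  · rw [if_neg hγ]
    have hγI : (γ:ℂ) * I ≠ 0 := mul_ne_zero (by exact_mod_cast hγ) I_ne_zero
    by_cases h : riemannZeta (1 / 2 + γ * I) = 0
    · rw [if_pos h]
      unfold cf
      have hDM : dM (γ * I) = 0 := by
        unfold dM
        rw [(FF_zero_iff γ).2 h, mul_zero]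
      have hD : dL (γ * I) = 0 := by rw [dL_eq, hDM, mul_zero]
      have e1 : (γ:ℂ) * I + 1 / 2 - 1 = γ * I - 1 / 2 := by ring
      have hne : (γ:ℂ) * I - 1 / 2 ≠ 0 := by
        rw [← e1, sub_ne_zero]; exact half_I_ne γ
      have hd0 : deriv dL (γ * I) = 2 * (γ * I) * deriv dM (γ * I) := by
        rw [dL_deriv, hDM, mul_zero, zero_add]
      by_cases hd : deriv riemannZeta (1 / 2 + γ * I) = 0
      · rw [if_neg, hd]
        · simp
        · rintro ⟨-, h2⟩
          rw [hd0, dM_deriv h, hd] at h2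
          simp at h2
      · have hd2 : deriv dL (γ * I) ≠ 0 := by
          rw [hd0, dM_deriv h, e1]
          exact mul_ne_zero (mul_ne_zero two_ne_zero hγI) (mul_ne_zero (half_I_ne0 γ) (mul_ne_zero hne hd))
        rw [if_pos ⟨hD, hd2⟩, hd0, dM_deriv h, e1]
        unfold aL
        have h2z : 2 * ((γ:ℂ) * I) + 1 ≠ 1 := by
          intro h3
          apply hγI
          have : 2 * ((γ:ℂ) * I) = 0 := by linear_combination h3
          simpa using this
        have hF2 : FF (2 * ((γ:ℂ) * I) + 1) = 2 * (γ * I) * riemannZeta (1 + 2 * γ * I) := by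
          rw [show FF (2 * ((γ:ℂ) * I) + 1) = (2 * ((γ:ℂ) * I) + 1 - 1) * riemannZeta (2 * ((γ:ℂ) * I) + 1)
            from ZU.J_g2b.FF_ne h2z]
          rw [show 2 * ((γ:ℂ) * I) + 1 = 1 + 2 * γ * I by ring]
          ring
        rw [hF2]
        have h0 := half_I_ne0 γ
        rw [add_comm ((γ:ℂ) * I)] at h0
        rw [add_comm ((γ:ℂ) * I)]
        rw [div_eq_div_iff (mul_ne_zero (mul_ne_zero two_ne_zero hγI) (mul_ne_zero h0 (mul_ne_zero hne hd)))
          (mul_ne_zero h0 hd)]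
        ring
    · rw [if_neg h]
      unfold cf
      rw [if_neg]
      rintro ⟨h2, -⟩
      rw [dL_eq] at h2
      rcases mul_eq_zero.1 h2 with h2 | h2
      · exact mul_ne_zero two_ne_zero hγI h2
      · unfold dM at h2
        rcases mul_eq_zero.1 h2 with h2 | h2
        · exact half_I_ne0 γ h2
        · exact h ((FF_zero_iff γ).1 h2)

end Pool.Agent.V8H22.IW
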