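import Pool.Agent.V8H22.IW.P6
import Pool.Agent.H353R2.Z1

/-!
# Examples of positive definite functions, and the windows in the variable `x`
-/

set_option autoImplicit false
set_option maxHeartbeats 1000000

open MeasureTheory Complex Set Filter Topology Metric
open H353 (FF zeros_finite)
open Pool.Agent.W190 (SF)
open Pool.Agent.V8H22.BSW Pool.Agent.V8H22.OSC

namespace Pool.Agent.V8H22.IW

open scoped ComplexConjugate

lemma PosDef.char {g : ℝ → ℂ} (hg : PosDef g) (v : ℝ) : PosDef (fun t => g t * cexp (t * v * I)) := by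
  intro S a
  obtain ⟨r, hr, h⟩ := hg S (fun x => a x * cexp (x * v * I))
  refine ⟨r, hr, ?_⟩
  rw [← h]
  refine Finset.sum_congr rfl fun x _ => Finset.sum_congr rfl fun y _ => ?_
  simp only
  have e1 : conj (a y * cexp (y * v * I)) = conj (a y) * cexp (-(y * v * I)) := by
    rw [map_mul, ← Complex.exp_conj]
    congr 2
    simp
  have e2 : cexp (((x - y : ℝ) : ℂ) * v * I) = cexp (x * v * I) * cexp (-(y * v * I)) := by
    rw [← Complex.exp_add]
    congr 1
    push_cast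
    ring
  rw [e1, e2]
  ring

/-- the overlap of two translates of an interval -/
lemma overlap (T x y : ℝ) :
    ∫ u : ℝ, (Ico x (x + T)).indicator (fun _ => (1:ℝ)) u * (Ico y (y + T)).indicator (fun _ => (1:ℝ)) u =
      max (T - |x - y|) 0 := by
  have h1 : (fun u : ℝ => (Ico x (x + T)).indicator (fun _ => (1:ℝ)) u *
      (Ico y (y + T)).indicator (fun _ => (1:ℝ)) u) =
      (Ico x (x + T) ∩ Ico y (y + T)).indicator (fun _ => (1:ℝ)) := by
    funext u
    rw [← Set.inter_indicator_mul]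
    simp
  rw [h1, integral_indicator (measurableSet_Ico.inter measurableSet_Ico), integral_const, smul_eq_mul,
    mul_one, Ico_inter_Ico]
  simp only [measureReal_def, Measure.restrict_apply MeasurableSet.univ, univ_inter, Real.volume_Ico]
  rw [ENNReal.toReal_ofReal']
  congr 1
  rcases le_total x y with h | h
  · rw [max_eq_right h, min_eq_left (by linarith), abs_of_nonpos (by linarith)]; ring
  · rw [max_eq_left h, min_eq_right (by linarith), abs_of_nonneg (by linarith)]; ring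

/-- the triangle function is positive definite -/
lemma tri_posDef {T : ℝ} (hT : 0 < T) : PosDef (fun t => ((max (1 - |t| / T) 0 : ℝ) : ℂ)) := by
  intro S a
  set χ : ℝ → ℝ → ℝ := fun x u => (Ico x (x + T)).indicator (fun _ => (1:ℝ)) u with hχ
  refine ⟨(∫ u : ℝ, ‖∑ x ∈ S, a x * ((χ x u : ℝ) : ℂ)‖ ^ 2) / T,
    div_nonneg (integral_nonneg fun u => by positivity) hT.le, ?_⟩
  have hint : ∀ x y : ℝ, Integrable (fun u : ℝ => χ x u * χ y u) := by
    intro x y
    have h1 : (fun u : ℝ => χ x u * χ y u) = (Ico x (x + T) ∩ Ico y (y + T)).indicator (fun _ => (1:ℝ)) := by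
      funext u
      rw [hχ]
      simp only
      rw [← Set.inter_indicator_mul]
      simp
    rw [h1, integrable_indicator_iff (measurableSet_Ico.inter measurableSet_Ico)]
    refine integrableOn_const ?_ (by simp)
    rw [Ico_inter_Ico, Real.volume_Ico]
    exact ENNReal.ofReal_ne_top
  have h1 : ∀ u : ℝ, ((‖∑ x ∈ S, a x * ((χ x u : ℝ) : ℂ)‖ ^ 2 : ℝ) : ℂ) =
      ∑ x ∈ S, ∑ y ∈ S, a x * conj (a y) * ((χ x u * χ y u : ℝ) : ℂ) := by
    intro u
    rw [← Complex.normSq_eq_norm_sq, ← Complex.mul_conj, map_sum, Finset.sum_mul_sum]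
    refine Finset.sum_congr rfl fun x _ => Finset.sum_congr rfl fun y _ => ?_
    rw [map_mul, Complex.conj_ofReal]
    push_cast
    ring
  have h2 : ((∫ u : ℝ, ‖∑ x ∈ S, a x * ((χ x u : ℝ) : ℂ)‖ ^ 2 : ℝ) : ℂ) =
      ∑ x ∈ S, ∑ y ∈ S, a x * conj (a y) * ((max (T - |x - y|) 0 : ℝ) : ℂ) := by
    rw [← integral_complex_ofReal]
    simp_rw [h1]
    rw [integral_finsetSum _ fun x _ => integrable_finsetSum _ fun y _ => ((hint x y).ofReal).const_mul _]
    refine Finset.sum_congr rfl fun x _ => ?_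
    rw [integral_finsetSum _ fun y _ => ((hint x y).ofReal).const_mul _]
    refine Finset.sum_congr rfl fun y _ => ?_
    rw [integral_const_mul, integral_complex_ofReal, overlap]
  rw [Complex.ofReal_div, h2, Finset.sum_div]
  refine Finset.sum_congr rfl fun x _ => ?_
  rw [Finset.sum_div]
  refine Finset.sum_congr rfl fun y _ => ?_
  have h3 : max (1 - |x - y| / T) 0 = max (T - |x - y|) 0 / T := by
    rw [← max_div_div_right hT.le, zero_div, sub_div, div_self hT.ne']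
  simp only
  rw [h3, Complex.ofReal_div]
  ring

/-- the Fejer weights -/
noncomputable def fej (T v : ℝ) (t : ℝ) : ℂ := ((max (1 - |t| / T) 0 : ℝ) : ℂ) * cexp (t * v * I)

lemma fej_posDef {T : ℝ} (hT : 0 < T) (v : ℝ) : PosDef (fej T v) := (tri_posDef hT).char v

lemma fej_zero (T v : ℝ) : fej T v 0 = 1 := by
  unfold fej
  simp

lemma fej_far {T v t : ℝ} (hT : 0 < T) (h : T ≤ |t|) : fej T v t = 0 := by
  unfold fej
  rw [max_eq_right, Complex.ofReal_zero, zero_mul]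
  rw [sub_nonpos]
  exact (one_le_div hT).2 h

/-- finiteness -/
lemma zer_finite (T : ℝ) : {γ : ℝ | |γ| < T ∧ riemannZeta (1 / 2 + γ * I) = 0}.Finite := by
  have h1 := zeros_finite (closedBall (0:ℂ) (T + 1)) (isCompact_closedBall _ _)
  refine Set.Finite.of_finite_image (f := fun γ : ℝ => (γ:ℂ) * I + 1 / 2) (h1.subset ?_) ?_
  · rintro _ ⟨γ, ⟨h2, h3⟩, rfl⟩
    refine ⟨(FF_zero_iff γ).2 h3, ?_⟩
    rw [mem_closedBall_zero_iff]
    refine (norm_add_le _ _).trans ?_
    rw [norm_mul, Complex.norm_I, mul_one, Complex.norm_real, Real.norm_eq_abs]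
    have : ‖(1 / 2 : ℂ)‖ = 1 / 2 := by norm_num
    rw [this]
    linarith
  · intro x _ y _ hxy
    have := congrArg Complex.im hxy
    simpa using this

lemma cM_finite (T : ℝ) : {γ : ℝ | |γ| < T ∧ cM γ ≠ 0}.Finite := by
  refine (zer_finite T).subset ?_
  rintro γ ⟨h1, h2⟩
  refine ⟨h1, ?_⟩
  by_contra h
  apply h2
  unfold cM
  rw [if_neg h]

lemma cL_finite (T : ℝ) : {γ : ℝ | |γ| < T ∧ cL γ ≠ 0}.Finite := by
  refine ((zer_finite T).union (finite_singleton (0:ℝ))).subset ?_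
  rintro γ ⟨h1, h2⟩
  by_cases hγ : γ = 0
  · exact Or.inr hγ
  · refine Or.inl ⟨h1, ?_⟩
    by_contra h
    apply h2
    unfold cL
    rw [if_neg hγ, if_neg h]

lemma fej_summable {c : ℝ → ℂ} (hc : ∀ T : ℝ, {γ : ℝ | |γ| < T ∧ c γ ≠ 0}.Finite) {T : ℝ} (hT : 0 < T) (v : ℝ) :
    Summable (fun γ : ℝ => fej T v γ * c γ) := by
  refine summable_of_hasFiniteSupport ((hc T).subset fun γ hγ => ?_)
  rw [Function.mem_support] at hγ
  refine ⟨?_, right_ne_zero_of_mul hγ⟩
  by_contra h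
  push Not at h
  exact hγ (by rw [fej_far hT h, zero_mul])

/-- from the logarithmic scale to the variable `x` -/
lemma toX {a : ℕ → ℝ} {δ κ s : ℝ} (h : ∀ᶠ V : ℝ in atTop, ∃ v, V ≤ v ∧ v ≤ (1 + δ) * V ∧ κ < s * fS a v) :
    ∀ᶠ X : ℝ in atTop, ∃ x ∈ Icc X (X ^ (1 + δ)), κ * √x < s * SF a x := by
  filter_upwards [Real.tendsto_log_atTop.eventually h, eventually_gt_atTop 1] with X hX hX1
  obtain ⟨v, h1, h2, h3⟩ := hX
  have hX0 : 0 < X := by linarith
  refine ⟨Real.exp v, ⟨?_, ?_⟩, ?_⟩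
  · rw [← Real.log_le_iff_le_exp hX0]; exact h1
  · rw [Real.rpow_def_of_pos hX0]
    exact Real.exp_le_exp.2 (by linarith)
  · have e1 : √(Real.exp v) = Real.exp (v / 2) := by rw [Real.exp_half]
    rw [e1]
    unfold fS at h3
    have h4 := mul_lt_mul_of_pos_right h3 (Real.exp_pos (v / 2))
    have e2 : Real.exp (-(v / 2)) * Real.exp (v / 2) = 1 := by
      rw [← Real.exp_add, neg_add_cancel, Real.exp_zero]
    calc κ * Real.exp (v / 2) < s * (SF a (Real.exp v) * Real.exp (-(v / 2))) * Real.exp (v / 2) := h4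
      _ = s * SF a (Real.exp v) := by linear_combination (s * SF a (Real.exp v)) * e2

/-- the theorem for positive definite functions -/
theorem final1 {a : ℕ → ℝ} {A D : ℂ → ℂ} (M : MD (fS a) 1 A D) (hs0 : D 0 = 0 → deriv D 0 ≠ 0) {c : ℝ → ℂ}
    (hc : ∀ γ, cf A D γ = c γ) {g : ℝ → ℂ} (hg : PosDef g) (hg0 : g 0 = 1)
    (hsum : Summable (fun γ : ℝ => g γ * c γ)) {δ κ s : ℝ} (h0 : 0 < δ) (hs : s = 1 ∨ s = -1)
    (hκ : κ < s * (∑' γ : ℝ, g γ * c γ).re) :
    ∀ᶠ X : ℝ in atTop, ∃ x ∈ Icc X (X ^ (1 + δ)), κ * √x < s * SF a x := by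
  have hs' : |s| = 1 := by rcases hs with rfl | rfl <;> simp
  obtain rfl : cf A D = c := funext hc
  exact toX (M.pd hs0 hg hg0 hsum h0 hs' hκ)

/-- the Ingham sums -/
noncomputable def hT (c : ℝ → ℂ) (T v : ℝ) : ℝ := (∑' γ : ℝ, fej T v γ * c γ).re

theorem final2 {a : ℕ → ℝ} {A D : ℂ → ℂ} (M : MD (fS a) 1 A D) (hs0 : D 0 = 0 → deriv D 0 ≠ 0) {c : ℝ → ℂ}
    (hc : ∀ γ, cf A D γ = c γ) (hfin : ∀ T : ℝ, {γ : ℝ | |γ| < T ∧ c γ ≠ 0}.Finite)
    {T δ ε : ℝ} (v : ℝ) (hT0 : 0 < T) (h0 : 0 < δ) (hε : 0 < ε) :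
    ∀ᶠ X : ℝ in atTop, (∃ x ∈ Icc X (X ^ (1 + δ)), (hT c T v - ε) * √x < SF a x) ∧
      ∃ x ∈ Icc X (X ^ (1 + δ)), SF a x < (hT c T v + ε) * √x := by
  have h1 := final1 M hs0 hc (fej_posDef hT0 v) (fej_zero T v) (fej_summable hfin hT0 v) h0 (Or.inl rfl)
    (κ := hT c T v - ε) (by unfold hT; linarith)
  have h2 := final1 M hs0 hc (fej_posDef hT0 v) (fej_zero T v) (fej_summable hfin hT0 v) h0 (Or.inr rfl)
    (κ := -(hT c T v + ε)) (by unfold hT; linarith)
  filter_upwards [h1, h2] with X g1 g2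
  obtain ⟨x, hx, hx1⟩ := g1
  obtain ⟨y, hy, hy1⟩ := g2
  exact ⟨⟨x, hx, by linarith⟩, ⟨y, hy, by linarith⟩⟩

end Pool.Agent.V8H22.IW
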