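import Pool.Agent.V8H22.IW.P7
import Pool.Agent.H353R2.K2

/-!
# One zero
-/

set_option autoImplicit false
set_option maxHeartbeats 1000000

open MeasureTheory Complex Set Filter Topology Metric
open H353 (FF FF_conj)
open Pool.Agent.W190 (SF)
open Pool.Agent.V8H22.BSW Pool.Agent.V8H22.OSC

namespace Pool.Agent.V8H22.IW

open scoped ComplexConjugate

lemma cf_conj {A D : ℂ → ℂ} (hA : ∀ z, A (conj z) = conj (A z)) (hD : ∀ z, D (conj z) = conj (D z))
    (hd : Differentiable ℂ D) (γ : ℝ) : cf A D (-γ) = conj (cf A D γ) := by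
  have e : (((-γ : ℝ) : ℂ)) * I = conj ((γ:ℂ) * I) := by simp
  have h1 : ∀ z, deriv D (conj z) = conj (deriv D z) := by
    intro z
    have h2 := (hd z).hasDerivAt.conj_conj
    have h3 : (conj ∘ D ∘ conj) = D := by
      funext w
      simp only [Function.comp, hD, Complex.conj_conj]
    rw [h3] at h2
    exact h2.deriv
  unfold cf
  rw [e, hD, h1, hA]
  by_cases h : D (γ * I) = 0 ∧ deriv D (γ * I) ≠ 0
  · rw [if_pos h, if_pos, map_div₀]
    exact ⟨by rw [h.1, map_zero], fun h2 => h.2 ((map_eq_zero _).1 h2)⟩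
  · rw [if_neg h, if_neg, map_zero]
    rintro ⟨h2, h3⟩
    exact h ⟨(map_eq_zero _).1 h2, fun h4 => h3 (by rw [h4, map_zero])⟩

/-- one frequency -/
noncomputable def one1 (γ0 : ℝ) (w : ℂ) (l : ℝ) : ℂ := if l = 0 then 1 else if l = γ0 then w / 2 else conj w / 2

lemma one_TP {γ0 : ℝ} (hγ : 0 < γ0) {w : ℂ} (hw : ‖w‖ = 1) :
    TP {0, γ0, -γ0} (one1 γ0 w) (fun u => 1 + (w * cexp (γ0 * u * I)).re) := by
  have h1 : (0:ℝ) ∉ ({γ0, -γ0} : Finset ℝ) := by
    simp only [Finset.mem_insert, Finset.mem_singleton, not_or]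
    exact ⟨hγ.ne, by linarith⟩
  have h2 : γ0 ∉ ({-γ0} : Finset ℝ) := by
    simp only [Finset.mem_singleton]
    linarith
  refine ⟨fun u => ?_, fun u => ?_, by simp, by unfold one1; rw [if_pos rfl]⟩
  · rw [Finset.sum_insert h1, Finset.sum_insert h2, Finset.sum_singleton]
    unfold one1
    rw [if_pos rfl, if_neg hγ.ne', if_pos rfl, if_neg (by linarith : -γ0 ≠ 0),
      if_neg (by linarith : -γ0 ≠ γ0)]
    have e1 : cexp (((-γ0 : ℝ) : ℂ) * u * I) = conj (cexp (γ0 * u * I)) := by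
      rw [← Complex.exp_conj]
      congr 1
      simp
    rw [e1]
    have e2 : ((w * cexp (γ0 * u * I)).re : ℂ) = (w * cexp (γ0 * u * I) + conj (w * cexp (γ0 * u * I))) / 2 := by
      rw [Complex.add_conj]
      push_cast
      ring
    rw [map_mul] at e2
    push_cast
    rw [e2]
    simp
    ring
  · have h3 := Complex.abs_re_le_norm (w * cexp (γ0 * u * I))
    rw [norm_mul, hw, one_mul, Complex.norm_exp] at h3
    simp only [Complex.mul_re, Complex.mul_im, Complex.ofReal_re, Complex.ofReal_im, Complex.I_re, Complex.I_im,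
      mul_zero, mul_one, zero_mul, add_zero, sub_self, Real.exp_zero] at h3
    have := (abs_le.1 h3).1
    simp only [Complex.mul_re] at this ⊢
    linarith

/-- the bound from one zero -/
theorem final3 {a : ℕ → ℝ} {A D : ℂ → ℂ} (M : MD (fS a) 1 A D) (hs0 : D 0 = 0 → deriv D 0 ≠ 0)
    (hA : ∀ z, A (conj z) = conj (A z)) (hD : ∀ z, D (conj z) = conj (D z)) {c : ℝ → ℂ}
    (hc : ∀ γ, cf A D γ = c γ) {γ0 : ℝ} (hγ : 0 < γ0)
    {δ ε s : ℝ} (h0 : 0 < δ) (hε : 0 < ε) (hs : s = 1 ∨ s = -1) :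
    ∀ᶠ X : ℝ in atTop, ∃ x ∈ Icc X (X ^ (1 + δ)), (s * (c 0).re + ‖c γ0‖ - ε) * √x < s * SF a x := by
  have hs' : |s| = 1 := by rcases hs with rfl | rfl <;> simp
  have hss : s * s = 1 := by rcases hs with rfl | rfl <;> norm_num
  obtain rfl : cf A D = c := funext hc
  -- the phase
  obtain ⟨w, hw, hw2⟩ : ∃ w : ℂ, ‖w‖ = 1 ∧ w * cf A D (-γ0) = ‖cf A D γ0‖ := by
    rw [cf_conj hA hD M.hD]
    by_cases h : cf A D γ0 = 0
    · exact ⟨1, by simp, by rw [h]; simp⟩
    · refine ⟨cf A D γ0 / ‖cf A D γ0‖, ?_, ?_⟩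
      · rw [norm_div, Complex.norm_real, norm_norm, div_self (norm_ne_zero_iff.2 h)]
      · rw [div_mul_eq_mul_div, Complex.mul_conj, Complex.normSq_eq_norm_sq]
        have : ((‖cf A D γ0‖ : ℝ) : ℂ) ≠ 0 := by exact_mod_cast norm_ne_zero_iff.2 h
        push_cast
        field_simp
  have hw3 : conj w * cf A D γ0 = ‖cf A D γ0‖ := by
    have h1 := congrArg conj hw2
    rw [map_mul, cf_conj hA hD M.hD, Complex.conj_conj, Complex.conj_ofReal] at h1
    exact h1
  have hsw : ‖(s:ℂ) * w‖ = 1 := by rw [norm_mul, Complex.norm_real, Real.norm_eq_abs, hs', hw, one_mul]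
  refine toX (M.main hs0 (one_TP hγ hsw) h0 hs' (κ := s * (cf A D 0).re + ‖cf A D γ0‖ - ε) ?_)
  have h1 : (0:ℝ) ∉ ({γ0, -γ0} : Finset ℝ) := by
    simp only [Finset.mem_insert, Finset.mem_singleton, not_or]
    exact ⟨hγ.ne, by linarith⟩
  have h2 : γ0 ∉ ({-γ0} : Finset ℝ) := by
    simp only [Finset.mem_singleton]
    linarith
  rw [Finset.sum_insert h1, Finset.sum_insert h2, Finset.sum_singleton]
  unfold one1
  rw [if_pos rfl, if_neg hγ.ne', if_pos rfl, if_neg (by linarith : -γ0 ≠ 0),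
      if_neg (by linarith : -γ0 ≠ γ0), neg_zero, neg_neg, one_mul]
  have e1 : (s:ℂ) * w / 2 * cf A D (-γ0) = ((s * ‖cf A D γ0‖ / 2 : ℝ) : ℂ) := by
    push_cast
    rw [← hw2]
    ring
  have e2 : conj ((s:ℂ) * w) / 2 * cf A D γ0 = ((s * ‖cf A D γ0‖ / 2 : ℝ) : ℂ) := by
    rw [map_mul, Complex.conj_ofReal]
    push_cast
    rw [← hw3]
    ring
  rw [e1, e2, Complex.add_re, Complex.add_re, Complex.ofReal_re]
  have e3 : s * ((cf A D 0).re + (s * ‖cf A D γ0‖ / 2 + s * ‖cf A D γ0‖ / 2)) =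
      s * (cf A D 0).re + ‖cf A D γ0‖ := by
    linear_combination ‖cf A D γ0‖ * hss
  rw [e3]
  linarith

lemma conj_half (z : ℂ) : conj z + 1 / 2 = conj (z + 1 / 2) := by
  rw [map_add, map_div₀, map_one]
  congr 2
  exact (Complex.conj_ofReal 2).symm

lemma aM_conj (z : ℂ) : aM (conj z) = conj (aM z) := by
  unfold aM
  rw [map_sub, map_div₀, map_one]
  congr 2
  exact (Complex.conj_ofReal 2).symm

lemma dM_conj (z : ℂ) : dM (conj z) = conj (dM z) := by
  unfold dM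
  rw [conj_half, FF_conj, map_mul]

lemma aL_conj (z : ℂ) : aL (conj z) = conj (aL z) := by
  unfold aL
  have e : 2 * conj z + 1 = conj (2 * z + 1) := by
    rw [map_add, map_mul, map_one]
    congr 2
    exact (Complex.conj_ofReal 2).symm
  rw [e, FF_conj, map_mul]
  congr 1
  exact aM_conj z

lemma dL_conj (z : ℂ) : dL (conj z) = conj (dL z) := by
  rw [dL_eq, dL_eq, dM_conj, map_mul, map_mul]
  congr 2
  exact (Complex.conj_ofReal 2).symm

lemma cM_zero : cM 0 = 0 := by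
  rw [← cf_M]
  unfold cf
  rw [if_neg]
  rintro ⟨h, -⟩
  rw [Complex.ofReal_zero, zero_mul] at h
  exact mu_D0 h

lemma cL_zero : cL 0 = 1 / riemannZeta (1 / 2) := by
  unfold cL
  rw [if_pos rfl]

end Pool.Agent.V8H22.IW
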